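import Pool.Agent.Q132.AB.Exp
import Pool.Agent.Q132.PT.Cone

/-!
Blocks `T ∘ σ^k`: cone, contraction and costs.
-/

set_option autoImplicit false

namespace Pool.Agent.Q132.AB
open Pool.Agent.H812R2.PI Pool.Agent.Q132.PT
open scoped BigOperators
variable {m : ℕ}

/-- the weights -/
noncomputable def rR (R : ℝ) (j : Fin (m+1)) : ℝ := if j = 0 then 1 else R

/-- the weights -/
noncomputable def w1 (j : Fin (m+1)) : ℝ := if j = 0 then 0 else 1

theorem wts {R : ℝ} (hR : 0 < R) : Wts (rR R : Fin (m+1) → ℝ) w1 := by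
  refine ⟨by simp [rR], by simp [w1], fun j hj => by simp [rR, hj, hR], fun j hj => by simp [w1, hj]⟩

/-- shape of the powers -/
theorem pow_shape {σ : Fin (m+1) → List (Fin (m+1))} (P : PD (inc σ)) :
    ∃ R₀ : ℝ, 0 < R₀ ∧ ∃ K₁ : ℕ, ∀ k ≥ K₁, ∀ i j j', 1 ≤ ((inc σ ^ k) i j : ℝ) ∧
      ((inc σ ^ k) i j : ℝ) ≤ R₀ * ((inc σ ^ k) i j' : ℝ) := by
  obtain ⟨K, hK0, hK⟩ := Pool.Agent.Q132.PC.balanced P
  obtain ⟨c, C, hc, hC, hlen⟩ := length_iter_bounds P
  have hlam := P.lam_gt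
  obtain ⟨i₀, _, hi₀⟩ := Finset.exists_min_image (Finset.univ : Finset (Fin (m+1))) P.u
    Finset.univ_nonempty
  have hu0 := P.u_pos i₀
  have h1 : Filter.Tendsto (fun k : ℕ => P.lam ^ k) Filter.atTop Filter.atTop :=
    tendsto_pow_atTop_atTop_of_one_lt hlam
  obtain ⟨K₁, hK₁⟩ := Filter.eventually_atTop.1
    (h1.eventually_ge_atTop ((2 * K + 2) / (c * P.u i₀)))
  refine ⟨(2 * C + c) / c, by positivity, max K₁ 1, fun k hk i j j' => ?_⟩
  have hk1 : 1 ≤ k := (le_max_right _ _).trans hk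
  have hbig := hK₁ k ((le_max_left _ _).trans hk)
  rw [div_le_iff₀ (by positivity)] at hbig
  have hL0 : 0 < P.lam ^ k := pow_pos (by linarith) k
  have hent : ∀ i j, |((inc σ ^ k) i j : ℝ) - ((iter σ k j).length : ℝ) * P.u i| ≤ K := by
    intro i j
    have h2 := hK (iter σ k j) ⟨k, hk1, j, List.infix_refl _⟩ i
    have h3 : ab (iter σ k j) i = (inc σ ^ k) i j := by
      rw [← inc_iter]
      rfl
    rw [h3] at h2
    exact h2
  have hui : P.u i₀ ≤ P.u i := hi₀ i (Finset.mem_univ _)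
  have hlow : ∀ j, c * P.lam ^ k * P.u i / 2 ≤ ((inc σ ^ k) i j : ℝ) ∧
      1 ≤ ((inc σ ^ k) i j : ℝ) := by
    intro j
    have h2 := (abs_le.1 (hent i j)).1
    have h3 := mul_le_mul_of_nonneg_right (hlen k j).1 (P.u_pos i).le
    have h4 : 2 * K + 2 ≤ c * P.lam ^ k * P.u i := by
      have h5 : c * P.lam ^ k * P.u i₀ ≤ c * P.lam ^ k * P.u i :=
        mul_le_mul_of_nonneg_left hui (by positivity)
      nlinarith
    constructor <;> linarith
  refine ⟨(hlow j).2, ?_⟩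
  have h2 := (abs_le.1 (hent i j)).2
  have h3 := mul_le_mul_of_nonneg_right (hlen k j).2 (P.u_pos i).le
  have h4 : 2 * K + 2 ≤ c * P.lam ^ k * P.u i := by
    have h5 : c * P.lam ^ k * P.u i₀ ≤ c * P.lam ^ k * P.u i :=
      mul_le_mul_of_nonneg_left hui (by positivity)
    nlinarith
  have h5 := (hlow j').1
  have h6 : (2 * C + c) / c * (c * P.lam ^ k * P.u i / 2) ≤
      (2 * C + c) / c * ((inc σ ^ k) i j' : ℝ) :=
    mul_le_mul_of_nonneg_left h5 (by positivity)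
  have h7 : (2 * C + c) / c * (c * P.lam ^ k * P.u i / 2) =
      C * P.lam ^ k * P.u i + c * P.lam ^ k * P.u i / 2 := by
    field_simp
  linarith

theorem N_pow {M : Matrix (Fin (m+1)) (Fin (m+1)) ℤ} (P : PD M) (k : ℕ) (x : Fin (m+1) → ℝ) :
    P.N (act (M ^ k) x) ≤ P.rho ^ k * P.N x := by
  induction k with
  | zero => rw [pow_zero, pow_zero, FOff_act_one, one_mul]
  | succ k ih =>
    rw [pow_succ', FOff_act_mul, pow_succ']
    refine (P.N_act _).trans ?_
    have := mul_le_mul_of_nonneg_left ih P.rho_nonneg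
    linarith

/-- contraction on the kernels of nonnegative functionals -/
theorem ker_small {M : Matrix (Fin (m+1)) (Fin (m+1)) ℤ} (P : PD M) :
    ∃ C : ℝ, 0 < C ∧ ∀ (k : ℕ) (h x : Fin (m+1) → ℝ), (∀ i, 0 ≤ h i) → 0 < ∑ i, h i →
      ∑ i, h i * act (M ^ k) x i = 0 → ∀ i, |act (M ^ k) x i| ≤ C * P.rho ^ k * ∑ j, |x j| := by
  obtain ⟨V, hV⟩ : ∃ V : ℝ, V = ∑ a, 1 / P.u a := ⟨_, rfl⟩
  have hVa : ∀ a, 1 / P.u a ≤ V := by
    intro a
    rw [hV]
    exact Finset.single_le_sum (f := fun a => 1 / P.u a)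
      (fun a _ => (one_div_pos.2 (P.u_pos a)).le) (Finset.mem_univ a)
  have hV0 : 0 < V := (one_div_pos.2 (P.u_pos 0)).trans_le (hVa 0)
  have hc := P.c_pos
  refine ⟨2 * P.c ^ 2 * (V + 1), by positivity, fun k h x hh hsum hker i => ?_⟩
  obtain ⟨X, hX⟩ : ∃ X : ℝ, X = ∑ j, |x j| := ⟨_, rfl⟩
  have hX0 : 0 ≤ X := by rw [hX]; exact Finset.sum_nonneg fun j _ => abs_nonneg _
  have hu1 : ∀ i, P.u i ≤ 1 := by
    intro i
    rw [← P.u_sum]
    exact Finset.single_le_sum (fun j _ => (P.u_pos j).le) (Finset.mem_univ i)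
  have hN : P.N x ≤ P.c * (2 * X) := by
    refine P.N_le x _ fun i => ?_
    have h1 : |x i| ≤ X := by
      rw [hX]
      exact Finset.single_le_sum (f := fun j => |x j|) (fun j _ => abs_nonneg _)
        (Finset.mem_univ i)
    have h2 : |∑ j, x j| ≤ X := by rw [hX]; exact Finset.abs_sum_le_sum_abs _ _
    have h3 : |x i - (∑ j, x j) * P.u i| ≤ |x i| + |∑ j, x j| * P.u i := by
      refine (abs_sub _ _).trans ?_
      rw [abs_mul, abs_of_pos (P.u_pos i)]
    have h4 : |∑ j, x j| * P.u i ≤ X * 1 :=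
      mul_le_mul h2 (hu1 i) (P.u_pos i).le hX0
    linarith
  obtain ⟨y, hy⟩ : ∃ y, y = act (M ^ k) x := ⟨_, rfl⟩
  rw [← hy] at hker ⊢
  have hNy : P.N y ≤ P.rho ^ k * (P.c * (2 * X)) := by
    rw [hy]
    exact (N_pow P k x).trans (mul_le_mul_of_nonneg_left hN (pow_nonneg P.rho_nonneg k))
  obtain ⟨Er, hEr⟩ : ∃ Er : ℝ, Er = P.c * (P.rho ^ k * (P.c * (2 * X))) := ⟨_, rfl⟩
  have hEr0 : 0 ≤ Er := by
    rw [hEr]
    have := pow_nonneg P.rho_nonneg k
    positivity
  have hdev : ∀ i, |y i - (∑ j, y j) * P.u i| ≤ Er := by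
    intro i
    rw [hEr]
    exact (P.le_cN y i).trans (mul_le_mul_of_nonneg_left hNy hc.le)
  obtain ⟨s, hs⟩ : ∃ s, s = ∑ j, y j := ⟨_, rfl⟩
  rw [← hs] at hdev
  have hhu : 0 < ∑ i, h i * P.u i := by
    obtain ⟨i, -, hi⟩ := Finset.exists_ne_zero_of_sum_ne_zero hsum.ne'
    have hi0 : 0 < h i := lt_of_le_of_ne (hh i) (Ne.symm hi)
    refine Finset.sum_pos' (fun j _ => mul_nonneg (hh j) (P.u_pos j).le)
      ⟨i, Finset.mem_univ _, mul_pos hi0 (P.u_pos i)⟩
  have hsb : |s| ≤ Er * V := by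
    have h1 : s * ∑ i, h i * P.u i = - ∑ i, h i * (y i - s * P.u i) := by
      simp only [mul_sub, Finset.sum_sub_distrib]
      rw [hker, Finset.mul_sum, zero_sub, neg_neg]
      exact Finset.sum_congr rfl fun i _ => by ring
    have h2 : |s| * ∑ i, h i * P.u i ≤ (Er * V) * ∑ i, h i * P.u i := by
      calc |s| * ∑ i, h i * P.u i = |s * ∑ i, h i * P.u i| := by
            rw [abs_mul, abs_of_pos hhu]
        _ = |∑ i, h i * (y i - s * P.u i)| := by rw [h1, abs_neg]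
        _ ≤ ∑ i, |h i * (y i - s * P.u i)| := Finset.abs_sum_le_sum_abs _ _
        _ ≤ ∑ i, (Er * V) * (h i * P.u i) := by
            refine Finset.sum_le_sum fun i _ => ?_
            rw [abs_mul, abs_of_nonneg (hh i)]
            have h3 : 1 ≤ V * P.u i := by
              have := hVa i
              rwa [div_le_iff₀ (P.u_pos i)] at this
            calc h i * |y i - s * P.u i| ≤ h i * Er := mul_le_mul_of_nonneg_left (hdev i) (hh i)
              _ = (Er * h i) * 1 := by ring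
              _ ≤ (Er * h i) * (V * P.u i) :=
                  mul_le_mul_of_nonneg_left h3 (mul_nonneg hEr0 (hh i))
              _ = _ := by ring
        _ = (Er * V) * ∑ i, h i * P.u i := by rw [Finset.mul_sum]
    exact le_of_mul_le_mul_right h2 hhu
  have h1 : |y i| ≤ |s| * P.u i + Er := by
    have h2 := hdev i
    have h3 : y i = s * P.u i + (y i - s * P.u i) := by ring
    calc |y i| = |s * P.u i + (y i - s * P.u i)| := by rw [← h3]
      _ ≤ |s * P.u i| + |y i - s * P.u i| := abs_add_le _ _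
      _ ≤ |s| * P.u i + Er := by rw [abs_mul, abs_of_pos (P.u_pos i)]; linarith
  have h2 : |s| * P.u i ≤ Er * V * 1 :=
    mul_le_mul hsb (hu1 i) (P.u_pos i).le (by positivity)
  calc |y i| ≤ Er * (V + 1) := by linarith
    _ = _ := by rw [hEr, hX]; ring

theorem inc_nn' (T : Fin (m+1) → List (Fin (m+1))) (i j : Fin (m+1)) : (0:ℝ) ≤ (inc T i j : ℝ) := by
  unfold inc
  positivity

theorem row_pos (T : Fin (m+1) → List (Fin (m+1))) (hdet : (inc T).det ≠ 0) (i : Fin (m+1)) :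
    (1:ℝ) ≤ ∑ j, (inc T i j : ℝ) := by
  have h1 : ∃ j, inc T i j ≠ 0 := by
    by_contra hcon
    push Not at hcon
    exact hdet (Matrix.det_eq_zero_of_row_eq_zero i hcon)
  obtain ⟨j, hj⟩ := h1
  have h2 : (1:ℝ) ≤ (inc T i j : ℝ) := by
    have h3 : 0 ≤ inc T i j := by unfold inc; positivity
    have h4 : 1 ≤ inc T i j := by omega
    exact_mod_cast h4
  exact h2.trans (Finset.single_le_sum (f := fun j => (inc T i j : ℝ))
    (fun j _ => inc_nn' T i j) (Finset.mem_univ j))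

theorem col_pos (T : Fin (m+1) → List (Fin (m+1))) (hdet : (inc T).det ≠ 0) (j : Fin (m+1)) :
    (1:ℝ) ≤ ∑ i, (inc T i j : ℝ) := by
  have h1 : ∃ i, inc T i j ≠ 0 := by
    by_contra hcon
    push Not at hcon
    exact hdet (Matrix.det_eq_zero_of_column_eq_zero j hcon)
  obtain ⟨i, hi⟩ := h1
  have h2 : (1:ℝ) ≤ (inc T i j : ℝ) := by
    have h3 : 0 ≤ inc T i j := by unfold inc; positivity
    have h4 : 1 ≤ inc T i j := by omega
    exact_mod_cast h4
  exact h2.trans (Finset.single_le_sum (f := fun i => (inc T i j : ℝ))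
    (fun i _ => inc_nn' T i j) (Finset.mem_univ i))

theorem col_len (T : Fin (m+1) → List (Fin (m+1))) (j : Fin (m+1)) :
    ∑ i, (inc T i j : ℝ) = ((T j).length : ℝ) := by
  have := ab_sum (T j)
  unfold ab at this
  unfold inc
  exact_mod_cast this

/-- the cone -/
theorem blk_cone {σ : Fin (m+1) → List (Fin (m+1))} {R : ℝ} {k : ℕ}
    (hsh : ∀ i j j', 1 ≤ ((inc σ ^ k) i j : ℝ) ∧ ((inc σ ^ k) i j : ℝ) ≤ R * ((inc σ ^ k) i j' : ℝ))
    (T : Fin (m+1) → List (Fin (m+1))) (hdet : (inc T).det ≠ 0) (g : Fin (m+1) → ℝ)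
    (hg : InC (rR R) g) :
    (∀ i, 0 ≤ row (inc T) g i) ∧ 0 < ∑ i, row (inc T) g i ∧
      g 0 ≤ row (inc T * inc σ ^ k) g 0 ∧ InC (rR R) (row (inc T * inc σ ^ k) g) := by
  have hg0 : ∀ i, 0 ≤ g i := fun i => (hg.2 i).1
  obtain ⟨h, hh⟩ : ∃ h, h = row (inc T) g := ⟨_, rfl⟩
  have hn : ∀ i, 0 ≤ h i := by
    intro i
    rw [hh]
    exact Finset.sum_nonneg fun l _ => mul_nonneg (hg0 l) (inc_nn' T l i)
  have hsum : g 0 ≤ ∑ i, h i := by
    rw [hh]
    unfold row
    rw [Finset.sum_comm]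
    calc g 0 ≤ g 0 * ∑ j, (inc T 0 j : ℝ) := by
          have := mul_le_mul_of_nonneg_left (row_pos T hdet 0) (hg0 0)
          linarith
      _ = ∑ j, g 0 * (inc T 0 j : ℝ) := by rw [Finset.mul_sum]
      _ ≤ _ := Finset.single_le_sum (f := fun l => ∑ i, g l * (inc T l i : ℝ))
          (fun l _ => Finset.sum_nonneg fun i _ => mul_nonneg (hg0 l) (inc_nn' T l i))
          (Finset.mem_univ 0)
  have hrow : row (inc T * inc σ ^ k) g = row (inc σ ^ k) h := by rw [row_mul, hh]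
  have hge : ∑ i, h i ≤ row (inc σ ^ k) h 0 := by
    unfold row
    refine Finset.sum_le_sum fun i _ => ?_
    have := mul_le_mul_of_nonneg_left (hsh i 0 0).1 (hn i)
    linarith
  rw [hrow, ← hh]
  have hpos := hg.1
  refine ⟨hn, by linarith, by linarith, by linarith, fun j => ⟨?_, ?_⟩⟩
  · refine Finset.sum_nonneg fun i _ => mul_nonneg (hn i) ?_
    linarith [(hsh i j 0).1]
  · unfold rR
    split_ifs with hj
    · rw [hj, one_mul]
    · unfold row
      rw [Finset.mul_sum]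
      refine Finset.sum_le_sum fun i _ => ?_
      have := mul_le_mul_of_nonneg_left (hsh i j 0).2 (hn i)
      linarith

/-- the sum of the absolute values on the kernel -/
theorem abs_sum_le {R : ℝ} (hR : 0 < R) (g x : Fin (m+1) → ℝ) (hg : InC (rR R) g)
    (hker : ∑ j, g j * x j = 0) : ∑ j, |x j| ≤ (1 + R) * nw w1 x := by
  have hnw : nw w1 x = ∑ j ∈ Finset.univ.erase 0, |x j| := by
    unfold nw
    rw [← Finset.add_sum_erase Finset.univ _ (Finset.mem_univ (0 : Fin (m+1)))]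
    have h0 : (w1 : Fin (m+1) → ℝ) 0 = 0 := by simp [w1]
    rw [h0, zero_mul, zero_add]
    refine Finset.sum_congr rfl fun j hj => ?_
    have h1 : (w1 : Fin (m+1) → ℝ) j = 1 := by simp [w1, Finset.ne_of_mem_erase hj]
    rw [h1, one_mul]
  rw [← Finset.add_sum_erase Finset.univ _ (Finset.mem_univ (0 : Fin (m+1)))] at hker ⊢
  rw [hnw]
  have h0 := hg.1
  have h1 : g 0 * |x 0| ≤ g 0 * (R * ∑ j ∈ Finset.univ.erase 0, |x j|) := by
    calc g 0 * |x 0| = |g 0 * x 0| := by rw [abs_mul, abs_of_pos h0]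
      _ = |∑ j ∈ Finset.univ.erase 0, g j * x j| := by
          rw [show g 0 * x 0 = - ∑ j ∈ Finset.univ.erase 0, g j * x j by linarith, abs_neg]
      _ ≤ ∑ j ∈ Finset.univ.erase 0, |g j * x j| := Finset.abs_sum_le_sum_abs _ _
      _ ≤ ∑ j ∈ Finset.univ.erase 0, (g 0 * R) * |x j| := by
          refine Finset.sum_le_sum fun j hj => ?_
          rw [abs_mul, abs_of_nonneg (hg.2 j).1]
          refine mul_le_mul_of_nonneg_right ?_ (abs_nonneg _)
          have h2 := (hg.2 j).2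
          unfold rR at h2
          rw [if_neg (Finset.ne_of_mem_erase hj)] at h2
          linarith
      _ = _ := by rw [← Finset.mul_sum]; ring
  have h2 := le_of_mul_le_mul_left h1 h0
  linarith

/-- the contraction -/
theorem blk_con {σ : Fin (m+1) → List (Fin (m+1))} (P : PD (inc σ)) {R : ℝ} (hR : 0 < R) {k : ℕ}
    (hsh : ∀ i j j', 1 ≤ ((inc σ ^ k) i j : ℝ) ∧ ((inc σ ^ k) i j : ℝ) ≤ R * ((inc σ ^ k) i j' : ℝ))
    {C : ℝ} (hC0 : 0 < C) (hC : ∀ (h x : Fin (m+1) → ℝ), (∀ i, 0 ≤ h i) → 0 < ∑ i, h i →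
      ∑ i, h i * act (inc σ ^ k) x i = 0 → ∀ i, |act (inc σ ^ k) x i| ≤
        C * P.rho ^ k * ∑ j, |x j|)
    (T : Fin (m+1) → List (Fin (m+1))) (hdet : (inc T).det ≠ 0) {L : ℝ}
    (hL : ∀ a, ((T a).length : ℝ) ≤ L) {κ : ℝ}
    (hκ : (m + 1) * L * (C * P.rho ^ k * (1 + R)) ≤ κ) :
    Cp (rR R) w1 κ (inc T * inc σ ^ k) := by
  refine ⟨fun g hg => (blk_cone hsh T hdet g hg).2.2, fun g hg x hx => ?_⟩
  obtain ⟨h1, h2, -, h4⟩ := blk_cone hsh T hdet g hg
  have hX := abs_sum_le hR _ x h4 hx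
  have hx' : ∑ i, row (inc T) g i * act (inc σ ^ k) x i = 0 := by
    rw [← row_dual, ← row_mul]
    exact hx
  have h5 := hC _ x h1 h2 hx'
  obtain ⟨y, hy⟩ : ∃ y, y = act (inc σ ^ k) x := ⟨_, rfl⟩
  rw [← hy] at h5
  have hL0 : 0 ≤ L := le_trans (Nat.cast_nonneg _) (hL 0)
  have hρ := pow_nonneg P.rho_nonneg k
  have hnw0 := nw_nonneg (wts hR) x
  rw [FOff_act_mul, ← hy]
  have h6 : nw w1 (act (inc T) y) ≤ ∑ i, |act (inc T) y i| := by
    unfold nw
    refine Finset.sum_le_sum fun i _ => ?_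
    have h7 : (w1 : Fin (m+1) → ℝ) i ≤ 1 := by unfold w1; split_ifs <;> norm_num
    calc w1 i * |act (inc T) y i| ≤ 1 * |act (inc T) y i| :=
          mul_le_mul_of_nonneg_right h7 (abs_nonneg _)
      _ = _ := one_mul _
  have h8 : ∑ i, |act (inc T) y i| ≤ ∑ j, L * |y j| := by
    calc ∑ i, |act (inc T) y i| ≤ ∑ i, ∑ j, (inc T i j : ℝ) * |y j| := by
          refine Finset.sum_le_sum fun i _ => ?_
          unfold act
          refine (Finset.abs_sum_le_sum_abs _ _).trans (le_of_eq ?_)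
          refine Finset.sum_congr rfl fun j _ => ?_
          rw [abs_mul, abs_of_nonneg (inc_nn' T i j)]
      _ = ∑ j, (∑ i, (inc T i j : ℝ)) * |y j| := by
          rw [Finset.sum_comm]
          exact Finset.sum_congr rfl fun j _ => by rw [Finset.sum_mul]
      _ ≤ _ := by
          refine Finset.sum_le_sum fun j _ => mul_le_mul_of_nonneg_right ?_ (abs_nonneg _)
          rw [col_len]
          exact hL j
  have h9 : ∑ j, L * |y j| ≤ (m + 1) * (L * (C * P.rho ^ k * ((1 + R) * nw w1 x))) := by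
    have h10 : ∀ j, L * |y j| ≤ L * (C * P.rho ^ k * ((1 + R) * nw w1 x)) := by
      intro j
      refine mul_le_mul_of_nonneg_left ((h5 j).trans ?_) hL0
      exact mul_le_mul_of_nonneg_left hX (by positivity)
    refine (Finset.sum_le_sum fun j _ => h10 j).trans (le_of_eq ?_)
    rw [Finset.sum_const, Finset.card_univ, Fintype.card_fin, nsmul_eq_mul]
    push_cast
    ring
  have h11 := mul_le_mul_of_nonneg_right hκ hnw0
  calc nw w1 (act (inc T) y) ≤ (m + 1) * (L * (C * P.rho ^ k * ((1 + R) * nw w1 x))) :=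
        h6.trans (h8.trans h9)
    _ = (m + 1) * L * (C * P.rho ^ k * (1 + R)) * nw w1 x := by ring
    _ ≤ _ := h11

end Pool.Agent.Q132.AB
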