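import Pool.Agent.Q132.AB.Blk

/-!
The block theorem.
-/

set_option autoImplicit false

namespace Pool.Agent.Q132.AB
open Pool.Agent.H812R2.PI Pool.Agent.Q132.PT
open scoped BigOperators
variable {m : ℕ}

/-- the cost of a transposition before a substitution with short images -/
theorem cst_comp_len (S T : Fin (m+1) → List (Fin (m+1))) {K L : ℝ} (hK0 : 0 ≤ K)
    (hK : ∀ x y, (cst S x y : ℝ) ≤ K) (hL : ∀ a, ((T a).length : ℝ) ≤ L) (x y : Fin (m+1)) :
    (cst (comp S T) x y : ℝ) ≤ L ^ 2 * K := by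
  refine (cst_comp_real S T x y).trans ?_
  have hL0 : 0 ≤ L := le_trans (Nat.cast_nonneg _) (hL 0)
  calc ∑ k, ∑ l, (inc T k x : ℝ) * (inc T l y : ℝ) * (cst S k l : ℝ)
      ≤ ∑ k, ∑ l, (inc T k x : ℝ) * (inc T l y : ℝ) * K := by
        refine Finset.sum_le_sum fun k _ => Finset.sum_le_sum fun l _ => ?_
        exact mul_le_mul_of_nonneg_left (hK k l) (mul_nonneg (inc_nn' T k x) (inc_nn' T l y))
    _ = (∑ k, (inc T k x : ℝ)) * (∑ l, (inc T l y : ℝ)) * K := by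
        rw [Finset.sum_mul_sum, Finset.sum_mul]
        exact Finset.sum_congr rfl fun k _ => by rw [Finset.sum_mul]
    _ ≤ L * L * K := by
        rw [col_len, col_len]
        refine mul_le_mul_of_nonneg_right ?_ hK0
        exact mul_le_mul (hL x) (hL y) (Nat.cast_nonneg _) hL0
    _ = _ := by ring

/-- good blocks: cone, contraction, growth and costs -/
structure GBlk (R : ℝ) (S : Fin (m+1) → List (Fin (m+1))) (g : ℝ) : Prop where
  cp : Cp (rR R) w1 (1 / 2) (inc S)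
  pos : 0 < g
  len : ∀ j, g ≤ ((S j).length : ℝ)
  cost : ∀ (S' : Fin (m+1) → List (Fin (m+1))) (K' : ℝ), 0 ≤ K' →
    (∀ x y, (cst S' x y : ℝ) ≤ K') → ∀ x y, (cst (comp S' S) x y : ℝ) ≤ g / 2 * K'

theorem geom_small {t : ℝ} (ht0 : 0 ≤ t) (ht1 : t < 1) (A : ℝ) {ε : ℝ} (hε : 0 < ε) :
    ∃ K : ℕ, ∀ k ≥ K, A * t ^ k ≤ ε := by
  have h1 : Filter.Tendsto (fun k : ℕ => A * t ^ k) Filter.atTop (nhds (A * 0)) :=
    (tendsto_pow_atTop_nhds_zero_of_lt_one ht0 ht1).const_mul A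
  rw [mul_zero] at h1
  exact Filter.eventually_atTop.1 (h1.eventually_le_const hε)

/-- growth and costs of a block -/
structure CBlk (S : Fin (m+1) → List (Fin (m+1))) (g : ℝ) : Prop where
  pos : 0 < g
  len : ∀ j, g ≤ ((S j).length : ℝ)
  cost : ∀ (S' : Fin (m+1) → List (Fin (m+1))) (K' : ℝ), 0 ≤ K' →
    (∀ x y, (cst S' x y : ℝ) ≤ K') → ∀ x y, (cst (comp S' S) x y : ℝ) ≤ g / 2 * K'

theorem GBlk.toC {R : ℝ} {S : Fin (m+1) → List (Fin (m+1))} {g : ℝ} (h : GBlk R S g) : CBlk S g :=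
  ⟨h.pos, h.len, h.cost⟩

theorem ext_len_ge (S : Fin (m+1) → List (Fin (m+1))) {g : ℝ}
    (hg : ∀ j, g ≤ ((S j).length : ℝ)) (w : List (Fin (m+1))) :
    g * w.length ≤ ((ext S w).length : ℝ) := by
  induction w with
  | nil => simp [ext]
  | cons a w ih =>
    rw [ext_cons, List.length_append, List.length_cons]
    push_cast
    have := hg a
    linarith

theorem len_ge_one (T : Fin (m+1) → List (Fin (m+1))) (hdet : (inc T).det ≠ 0) (j : Fin (m+1)) :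
    (1:ℝ) ≤ ((T j).length : ℝ) := by
  rw [← col_len]
  exact col_pos T hdet j

/-- **Block theorem.** -/
theorem block {σ : Fin (m+1) → List (Fin (m+1))} (P : PD (inc σ)) (hS : SemiConjToral σ) :
    ∃ R₀ β : ℝ, 0 < R₀ ∧ 1 < β ∧ ∀ R ≥ R₀, ∃ K : ℕ, ∀ k ≥ K,
      (∀ T : Fin (m+1) → List (Fin (m+1)), (inc T).det ≠ 0 →
        (∀ a, ((T a).length : ℝ) ≤ (β ^ k) ^ 2) → ∃ g, GBlk R (comp T (iter σ k)) g) ∧
      (∀ T T' : Fin (m+1) → List (Fin (m+1)), (inc T).det ≠ 0 → (inc T').det ≠ 0 →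
        (∀ a, ((T a).length : ℝ) ≤ β ^ k) → (∀ a, ((T' a).length : ℝ) ≤ β ^ k) →
        ∃ g, CBlk (comp (comp T (iter σ k)) T') g) := by
  have hlam := P.lam_gt
  have hlam0 : 0 < P.lam := by linarith
  obtain ⟨B, hB0, hB⟩ := cst_comp_iter_real P
  obtain ⟨C, θ, hC0, hθ0, hθ1, hCθ⟩ := cst_exp P hS
  obtain ⟨R₀, hR₀, K₁, hK₁⟩ := pow_shape P
  obtain ⟨C', hC'0, hC'⟩ := ker_small P
  obtain ⟨c, C₂, hc, -, hlen⟩ := length_iter_bounds P
  have hρ0 := P.rho_nonneg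
  have hρ1 := P.rho_lt
  -- the rate
  obtain ⟨η, hη0, hη1, hη2, hη3⟩ : ∃ η : ℝ, 0 < η ∧ η ≤ 1 ∧ 15 * η * θ < P.lam - θ ∧
      3 * η * P.rho < 1 - P.rho := by
    have h1 : 0 < (P.lam - θ) / (30 * θ) := div_pos (by linarith) (by linarith)
    have h2 : 0 < (1 - P.rho) / 6 := by linarith
    refine ⟨min 1 (min ((P.lam - θ) / (30 * θ)) ((1 - P.rho) / 6)),
      lt_min one_pos (lt_min h1 h2), min_le_left _ _, ?_, ?_⟩
    · have h3 : min 1 (min ((P.lam - θ) / (30 * θ)) ((1 - P.rho) / 6)) ≤ (P.lam - θ) / (30 * θ) :=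
        (min_le_right _ _).trans (min_le_left _ _)
      rw [le_div_iff₀ (by linarith)] at h3
      linarith
    · have h3 : min 1 (min ((P.lam - θ) / (30 * θ)) ((1 - P.rho) / 6)) ≤ (1 - P.rho) / 6 :=
        (min_le_right _ _).trans (min_le_right _ _)
      have h4 := mul_le_mul_of_nonneg_right h3 hρ0
      nlinarith
  obtain ⟨β, hβ⟩ : ∃ β : ℝ, β = 1 + η := ⟨_, rfl⟩
  have hβ1 : 1 < β := by rw [hβ]; linarith
  have hβ0 : 0 < β := by linarith
  have hβs : β ^ 2 ≤ 1 + 3 * η := by rw [hβ]; nlinarith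
  have hβ2 : β ^ 4 * θ < P.lam := by
    have h0 : β ^ 4 = (β ^ 2) ^ 2 := by ring
    have h1 : β ^ 4 ≤ 1 + 15 * η := by
      rw [h0]
      have h2 : (β ^ 2) ^ 2 ≤ (1 + 3 * η) ^ 2 := pow_le_pow_left₀ (by positivity) hβs 2
      nlinarith
    have h2 := mul_le_mul_of_nonneg_right h1 hθ0.le
    nlinarith
  have hβρ : β ^ 2 * P.rho < 1 := by
    have h2 := mul_le_mul_of_nonneg_right hβs hρ0
    nlinarith
  refine ⟨R₀, β, hR₀, hβ1, fun R hR => ?_⟩
  have hR0 : 0 < R := hR₀.trans_le hR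
  obtain ⟨K₂, hK₂⟩ := geom_small (t := β ^ 4 * θ / P.lam) (by positivity)
    ((div_lt_one hlam0).2 hβ2) (B * C) (ε := c / 2) (by linarith)
  obtain ⟨K₃, hK₃⟩ := geom_small (t := β ^ 2 * P.rho) (by positivity) hβρ
    ((m + 1) * C' * (1 + R)) (ε := 1 / 2) (by norm_num)
  refine ⟨max (max K₁ 1) (max K₂ K₃), fun k hk => ?_⟩
  have hk1 : K₁ ≤ k := (le_max_left _ _).trans ((le_max_left _ _).trans hk)
  have hk1' : 1 ≤ k := (le_max_right _ _).trans ((le_max_left _ _).trans hk)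
  have hk2 : K₂ ≤ k := (le_max_left _ _).trans ((le_max_right _ _).trans hk)
  have hk3 : K₃ ≤ k := (le_max_right _ _).trans ((le_max_right _ _).trans hk)
  have hsh : ∀ i j j', 1 ≤ ((inc σ ^ k) i j : ℝ) ∧
      ((inc σ ^ k) i j : ℝ) ≤ R * ((inc σ ^ k) i j' : ℝ) := by
    intro i j j'
    obtain ⟨h1, h2⟩ := hK₁ k hk1 i j j'
    have h3 := (hK₁ k hk1 i j' j').1
    exact ⟨h1, h2.trans (mul_le_mul_of_nonneg_right hR (by linarith))⟩
  have hLk : 0 < P.lam ^ k := pow_pos hlam0 k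
  have hinc : ∀ T : Fin (m+1) → List (Fin (m+1)), inc (comp T (iter σ k)) = inc T * inc σ ^ k :=
    fun T => by rw [inc_comp, inc_iter]
  have hlenT : ∀ T : Fin (m+1) → List (Fin (m+1)), (inc T).det ≠ 0 → ∀ j,
      c * P.lam ^ k ≤ ((comp T (iter σ k) j).length : ℝ) := by
    intro T hdet j
    have h1 := ext_len_ge T (len_ge_one T hdet) (iter σ k j)
    rw [one_mul] at h1
    exact (hlen k j).1.trans h1
  -- the costs
  have hcost : ∀ T : Fin (m+1) → List (Fin (m+1)), ∀ L : ℝ, 0 ≤ L →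
      (∀ a, ((T a).length : ℝ) ≤ L) → ∀ (S' : Fin (m+1) → List (Fin (m+1))) (K' : ℝ), 0 ≤ K' →
      (∀ x y, (cst S' x y : ℝ) ≤ K') → ∀ x y,
        (cst (comp S' (comp T (iter σ k))) x y : ℝ) ≤ L ^ 2 * K' * (B * (C * θ ^ k)) := by
    intro T L hL0 hL S' K' hK'0 hK' x y
    rw [← comp_assoc]
    exact hB k hk1' (comp S' T) (L ^ 2 * K') (by positivity) (cst_comp_len S' T hK'0 hK' hL)
      (C * θ ^ k) (hCθ k) x y
  have h3 := hK₂ k hk2
  rw [div_pow, ← mul_div_assoc, div_le_iff₀ hLk, mul_pow] at h3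
  have h4 : (β ^ k) ^ 4 * (B * (C * θ ^ k)) ≤ c / 2 * P.lam ^ k := by
    have h5 : (β ^ 4) ^ k = (β ^ k) ^ 4 := by rw [← pow_mul, ← pow_mul, mul_comm]
    rw [h5] at h3
    calc (β ^ k) ^ 4 * (B * (C * θ ^ k)) = B * C * ((β ^ k) ^ 4 * θ ^ k) := by ring
      _ ≤ _ := h3
  refine ⟨fun T hdet hL => ?_, fun T T' hdet hdet' hL hL' => ?_⟩
  · refine ⟨c * P.lam ^ k, ?_, by positivity, hlenT T hdet, fun S' K' hK'0 hK' x y => ?_⟩
    · rw [hinc]
      refine blk_con P hR0 hsh hC'0 (fun h x => hC' k h x) T hdet hL ?_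
      have h1 := hK₃ k hk3
      rw [mul_pow] at h1
      calc (m + 1) * (β ^ k) ^ 2 * (C' * P.rho ^ k * (1 + R)) =
            (m + 1) * C' * (1 + R) * ((β ^ 2) ^ k * P.rho ^ k) := by
            rw [← pow_mul, ← pow_mul, mul_comm k 2]
            ring
        _ ≤ 1 / 2 := h1
    · refine (hcost T ((β ^ k) ^ 2) (by positivity) hL S' K' hK'0 hK' x y).trans ?_
      calc ((β ^ k) ^ 2) ^ 2 * K' * (B * (C * θ ^ k)) =
            ((β ^ k) ^ 4 * (B * (C * θ ^ k))) * K' := by ring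
        _ ≤ (c / 2 * P.lam ^ k) * K' := mul_le_mul_of_nonneg_right h4 hK'0
        _ = _ := by ring
  · refine ⟨c * P.lam ^ k, by positivity, fun j => ?_, fun S' K' hK'0 hK' x y => ?_⟩
    · have h1 := ext_len_ge (comp T (iter σ k)) (hlenT T hdet) (T' j)
      have h2 := len_ge_one T' hdet' j
      have h5 : 0 < c * P.lam ^ k := by positivity
      have h6 := mul_le_mul_of_nonneg_left h2 h5.le
      rw [mul_one] at h6
      exact h6.trans h1
    · rw [← comp_assoc]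
      have h1 : ∀ x y, (cst (comp S' (comp T (iter σ k))) x y : ℝ) ≤
          (β ^ k) ^ 2 * K' * (B * (C * θ ^ k)) :=
        hcost T (β ^ k) (by positivity) hL S' K' hK'0 hK'
      refine (cst_comp_len _ T' (by positivity) h1 hL' x y).trans ?_
      calc (β ^ k) ^ 2 * ((β ^ k) ^ 2 * K' * (B * (C * θ ^ k))) =
            ((β ^ k) ^ 4 * (B * (C * θ ^ k))) * K' := by ring
        _ ≤ (c / 2 * P.lam ^ k) * K' := mul_le_mul_of_nonneg_right h4 hK'0
        _ = _ := by ring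

end Pool.Agent.Q132.AB
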