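import Pool.Agent.Q132.AB.Final

/-!
A finite certificate, multiplicative under composition.
-/

set_option autoImplicit false

namespace Pool.Agent.Q132.AB
open Pool.Agent.H812R2.PI Pool.Agent.Q132.PT
open scoped BigOperators
variable {m : ℕ}

/-- `S` has the certificate `(B, c, g)`: the paths of `S(xy)` and `S(yx)` are `B`-close, they differ
in at most `c` edges, and the images of the letters have length at least `g`. -/
structure Cert (S : Fin (m+1) → List (Fin (m+1))) (B c g : ℕ) : Prop where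
  close : ∀ x y, Cls B (S x ++ S y) (S y ++ S x)
  cost : ∀ x y, cst S x y ≤ c
  len : ∀ x, g ≤ (S x).length

theorem Cert.step {S : Fin (m+1) → List (Fin (m+1))} {B c g : ℕ} (h : Cert S B c g)
    (S' : Fin (m+1) → List (Fin (m+1))) (K : ℕ) (hK : ∀ x y, cst S' x y ≤ K) (x y : Fin (m+1)) :
    cst (comp S' S) x y ≤ K * (B * c) :=
  (cst_comp_close S' S K hK B x y (h.close x y)).trans
    (Nat.mul_le_mul_left K (Nat.mul_le_mul_left B (h.cost y x)))

theorem cert_cost (B c g : (Fin (m+1) → List (Fin (m+1))) → ℕ) :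
    ∃ C : ℕ, ∀ l : List (Fin (m+1) → List (Fin (m+1))), (∀ S ∈ l, Cert S (B S) (c S) (g S)) →
      ∀ x y, cst (compList l) x y ≤ C * (l.map fun S => B S * c S).prod := by
  obtain ⟨C, hC⟩ := (Set.finite_range fun p : Fin (m+1) × Fin (m+1) =>
      cst (compList ([] : List (Fin (m+1) → List (Fin (m+1))))) p.1 p.2).bddAbove
  refine ⟨C, fun l => ?_⟩
  induction l using List.reverseRecOn with
  | nil =>
    intro _ x y
    rw [List.map_nil, List.prod_nil, mul_one]
    exact hC ⟨(x, y), rfl⟩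
  | append_singleton l S ih =>
    intro hl x y
    have hl' : ∀ T ∈ l, Cert T (B T) (c T) (g T) := fun T hT => hl T (List.mem_append_left _ hT)
    have hS := hl S (List.mem_append_right _ (List.mem_singleton_self _))
    rw [compList_snoc, List.map_append, List.prod_append, List.map_singleton, List.prod_singleton]
    refine (hS.step _ _ (ih hl') x y).trans (le_of_eq ?_)
    ring

theorem cert_len (B c g : (Fin (m+1) → List (Fin (m+1))) → ℕ)
    (l : List (Fin (m+1) → List (Fin (m+1)))) (hl : ∀ S ∈ l, Cert S (B S) (c S) (g S)) :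
    ∀ j, (l.map g).prod ≤ (compList l j).length := by
  induction l with
  | nil => simp [compList]
  | cons S l ih =>
    have h2 := ih fun T hT => hl T (List.mem_cons_of_mem _ hT)
    have h3 := hl S (List.mem_cons_self ..)
    rw [List.map_cons, List.prod_cons]
    intro j
    have h4 := ext_len_ge S (g := (g S : ℝ)) (fun j => by exact_mod_cast h3.len j) (compList l j)
    have h5 : g S * (compList l j).length ≤ (ext S (compList l j)).length := by exact_mod_cast h4
    exact (Nat.mul_le_mul_left _ (h2 j)).trans h5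

theorem lam_ge {M : Matrix (Fin (m+1)) (Fin (m+1)) ℤ} (P : PD M)
    (S : Fin (m+1) → List (Fin (m+1))) (hS : inc S = M) (g : ℝ)
    (hg : ∀ j, g ≤ ((S j).length : ℝ)) : g ≤ P.lam := by
  have h5 : P.lam = ∑ j, ((S j).length : ℝ) * P.u j := by
    calc P.lam = ∑ i, P.lam * P.u i := by rw [← Finset.mul_sum, P.u_sum, mul_one]
      _ = ∑ i, ∑ j, (M i j : ℝ) * P.u j :=
          Finset.sum_congr rfl fun i _ => (P.M_u i).symm
      _ = ∑ j, (∑ i, (M i j : ℝ)) * P.u j := by
          rw [Finset.sum_comm]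
          exact Finset.sum_congr rfl fun j _ => by rw [Finset.sum_mul]
      _ = _ := Finset.sum_congr rfl fun j _ => by
          have h6 := col_len S j
          rw [hS] at h6
          rw [h6]
  rw [h5]
  calc g = ∑ j, g * P.u j := by rw [← Finset.mul_sum, P.u_sum, mul_one]
    _ ≤ _ := Finset.sum_le_sum fun j _ => mul_le_mul_of_nonneg_right (hg j) (P.u_pos j).le

/-- **Multiplicative criterion.** -/
theorem cert_semi (B c g : (Fin (m+1) → List (Fin (m+1))) → ℕ)
    (l : List (Fin (m+1) → List (Fin (m+1)))) (hl : ∀ S ∈ l, Cert S (B S) (c S) (g S))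
    (hlt : (l.map fun S => B S * c S).prod < (l.map g).prod)
    (hM : PisotMat (inc (compList l))) : SemiConjToral (compList l) := by
  obtain ⟨P⟩ := Pool.Agent.Q132.PC.exists_PD' (inc (compList l))
    (fun i j => by unfold inc; positivity) hM
  have hU : Uni (compList l) := hM.2.1
  obtain ⟨C, hC⟩ := cert_cost B c g
  have hlen := cert_len B c g l hl
  have hlam : (((l.map g).prod : ℕ) : ℝ) ≤ P.lam :=
    lam_ge P _ rfl _ fun j => by exact_mod_cast hlen j
  have hlt' : (((l.map fun S => B S * c S).prod : ℕ) : ℝ) < P.lam :=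
    lt_of_lt_of_le (by exact_mod_cast hlt) hlam
  have hprod : ∀ n : ℕ, (((List.replicate n l).flatten).map fun S => B S * c S).prod =
      ((l.map fun S => B S * c S).prod) ^ n := by
    intro n
    induction n with
    | zero => simp
    | succ n ih =>
      rw [List.replicate_succ, List.flatten_cons, List.map_append, List.prod_append, ih, pow_succ']
  have hcost : ∀ n x y, (cst (iter (compList l) n) x y : ℝ) ≤
      (C : ℝ) * (((l.map fun S => B S * c S).prod : ℕ) : ℝ) ^ n := by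
    intro n x y
    rw [← Pool.Agent.Y316.Pisot.compList_flatten]
    have h1 := hC ((List.replicate n l).flatten) (fun τ hτ => hl τ (mem_flatten_replicate hτ)) x y
    rw [hprod] at h1
    exact_mod_cast h1
  refine semi_of_small P hU.unit fun ε hε => ?_
  obtain ⟨n₀, hn₀⟩ := small_of_geom (C := (C : ℝ)) P.lam_gt (Nat.cast_nonneg _) hlt'
    (fun n => (C : ℝ) * (((l.map fun S => B S * c S).prod : ℕ) : ℝ) ^ n) (fun n => le_rfl) ε hε
  exact ⟨n₀, fun n hn x y => (hcost n x y).trans (hn₀ n hn)⟩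

/-- a certificate for a power is enough -/
theorem cert_pow {σ : Fin (m+1) → List (Fin (m+1))} (hM : PisotMat (inc σ)) {N : ℕ} (hN : 1 ≤ N)
    {B c g : ℕ} (h : Cert (iter σ N) B c g) (hlt : B * c < g) : SemiConjToral σ := by
  obtain ⟨P⟩ := Pool.Agent.Q132.PC.exists_PD' (inc σ) (fun i j => by unfold inc; positivity) hM
  have hU : Uni σ := hM.2.1
  have hlam0 : 0 < P.lam := by linarith [P.lam_gt]
  obtain ⟨C, hC⟩ : ∃ C : ℕ, ∀ r < N, ∀ x y, cst (iter σ r) x y ≤ C := by
    obtain ⟨C, hC⟩ := (Set.finite_range fun p : Fin N × Fin (m+1) × Fin (m+1) =>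
      cst (iter σ p.1) p.2.1 p.2.2).bddAbove
    exact ⟨C, fun r hr x y => hC ⟨(⟨r, hr⟩, x, y), rfl⟩⟩
  have hstep : ∀ r < N, ∀ q : ℕ, ∀ x y, cst (iter σ (r + N * q)) x y ≤ C * (B * c) ^ q := by
    intro r hr q
    induction q with
    | zero =>
      intro x y
      rw [show r + N * 0 = r from rfl, pow_zero, Nat.mul_one]
      exact hC r hr x y
    | succ q ih =>
      intro x y
      rw [Nat.mul_succ, ← Nat.add_assoc, iter_add', pow_succ, ← mul_assoc]
      exact h.step _ _ ih x y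
  have hg : ((g : ℕ) : ℝ) ≤ P.lam ^ N := by
    have h1 := lam_ge (P.pow N hN) (iter σ N) (inc_iter σ N) (g : ℝ)
      fun j => by exact_mod_cast h.len j
    exact h1
  have hL : ((B * c : ℕ) : ℝ) < P.lam ^ N := lt_of_lt_of_le (by exact_mod_cast hlt) hg
  obtain ⟨t, ht⟩ : ∃ t : ℝ, t = ((B * c : ℕ) : ℝ) / P.lam ^ N := ⟨_, rfl⟩
  have ht0 : 0 ≤ t := by rw [ht]; positivity
  have ht1 : t < 1 := by rw [ht]; exact (div_lt_one (by positivity)).2 hL
  refine semi_of_small P hU.unit fun ε hε => ?_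
  obtain ⟨q₀, hq₀⟩ := geom_small ht0 ht1 (C : ℝ) hε
  refine ⟨N * q₀, fun n hn x y => ?_⟩
  have hq : q₀ ≤ n / N := (Nat.le_div_iff_mul_le hN).2 (by rw [mul_comm]; exact hn)
  have h1 := hstep (n % N) (Nat.mod_lt _ hN) (n / N) x y
  rw [Nat.mod_add_div] at h1
  have h2 : (cst (iter σ n) x y : ℝ) ≤ (C : ℝ) * (((B * c : ℕ) : ℝ)) ^ (n / N) := by
    exact_mod_cast h1
  have h3 := hq₀ _ hq
  have h4 : (((B * c : ℕ) : ℝ)) ^ (n / N) = t ^ (n / N) * P.lam ^ (N * (n / N)) := by
    rw [ht, div_pow, pow_mul]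
    field_simp
  have h5 : P.lam ^ (N * (n / N)) ≤ P.lam ^ n :=
    pow_le_pow_right₀ P.lam_gt.le (Nat.mul_div_le n N)
  calc (cst (iter σ n) x y : ℝ) ≤ (C : ℝ) * (((B * c : ℕ) : ℝ)) ^ (n / N) := h2
    _ = (C * t ^ (n / N)) * P.lam ^ (N * (n / N)) := by rw [h4]; ring
    _ ≤ ε * P.lam ^ (N * (n / N)) := mul_le_mul_of_nonneg_right h3 (by positivity)
    _ ≤ ε * P.lam ^ n := mul_le_mul_of_nonneg_left h5 hε.le

/-- **The conjecture is equivalent to the existence of a certificate.** -/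
theorem cert_iff {σ : Fin (m+1) → List (Fin (m+1))} (hM : PisotMat (inc σ)) :
    SemiConjToral σ ↔ ∃ N ≥ 1, ∃ B c g : ℕ, Cert (iter σ N) B c g ∧ B * c < g := by
  constructor
  · intro hS
    obtain ⟨P⟩ := Pool.Agent.Q132.PC.exists_PD' (inc σ) (fun i j => by unfold inc; positivity) hM
    obtain ⟨B, hB⟩ := cls_iter P
    obtain ⟨a, C₂, ha, -, hlen⟩ := length_iter_bounds P
    obtain ⟨n₀, hn₀⟩ := cst_small P hS (ε := a / (4 * (B + 1))) (by positivity)
    obtain ⟨n₁, hn₁⟩ := Filter.eventually_atTop.1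
      ((tendsto_pow_atTop_atTop_of_one_lt P.lam_gt).eventually_ge_atTop (4 * (B + 1) / a))
    obtain ⟨N, hN0, hN1, hN2⟩ : ∃ N : ℕ, 1 ≤ N ∧ n₀ ≤ N ∧ n₁ ≤ N :=
      ⟨max 1 (max n₀ n₁), le_max_left _ _, (le_max_left _ _).trans (le_max_right _ _),
        (le_max_right _ _).trans (le_max_right _ _)⟩
    have hL0 : 0 < P.lam ^ N := pow_pos (by linarith [P.lam_gt]) N
    refine ⟨N, hN0, B, ⌈a / (4 * (B + 1)) * P.lam ^ N⌉₊, ⌈a * P.lam ^ N⌉₊,
      ⟨hB N hN0, fun x y => ?_, fun x => ?_⟩, ?_⟩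
    · have h1 := (hn₀ N hN1 x y).trans (Nat.le_ceil _)
      exact_mod_cast h1
    · exact Nat.ceil_le.2 (hlen N x).1
    · have h1 := hn₁ N hN2
      rw [div_le_iff₀ ha] at h1
      have h2 : ((⌈a / (4 * (B + 1)) * P.lam ^ N⌉₊ : ℕ) : ℝ) <
          a / (4 * (B + 1)) * P.lam ^ N + 1 := Nat.ceil_lt_add_one (by positivity)
      have h3 : ((B * ⌈a / (4 * (B + 1)) * P.lam ^ N⌉₊ : ℕ) : ℝ) <
          ((⌈a * P.lam ^ N⌉₊ : ℕ) : ℝ) := by
        refine lt_of_lt_of_le ?_ (Nat.le_ceil _)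
        push_cast
        have hB1 : (0:ℝ) ≤ B := Nat.cast_nonneg B
        have h4 : (B : ℝ) * ((⌈a / (4 * (B + 1)) * P.lam ^ N⌉₊ : ℕ) : ℝ) ≤
            (B + 1) * (a / (4 * (B + 1)) * P.lam ^ N + 1) :=
          mul_le_mul (by linarith) h2.le (Nat.cast_nonneg _) (by linarith)
        have h5 : ((B : ℝ) + 1) * (a / (4 * (B + 1)) * P.lam ^ N + 1) =
            a * P.lam ^ N / 4 + (B + 1) := by
          field_simp
        have h6 : 0 < a * P.lam ^ N := by positivity
        nlinarith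
      exact_mod_cast h3
  · rintro ⟨N, hN, B, c, g, h, hlt⟩
    exact cert_pow hM hN h hlt

end Pool.Agent.Q132.AB
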