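import Pool.Agent.Q132.PC.Pair
import Pool.Agent.Q132.PT.Cost

/-!
If the subshift of `σ` is semi-conjugate to a toral translation, then the costs of the powers of
`σ` are small compared with the lengths.
-/

set_option autoImplicit false

namespace Pool.Agent.Q132.AB
open Pool.Agent.H812R2.PI Pool.Agent.Q132.PT Pool.Agent.Q132.PC
open scoped BigOperators
variable {d : ℕ}

open Classical in
/-- comparison of two concatenations with the same letters -/
theorem dif_four (A B : List (Fin d)) :
    dif (A ++ B) (B ++ A) ≤
      ((Finset.range A.length).filter (BadAt 0 A B)).card +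
      ((Finset.range A.length).filter (BadAt (ab B) A A)).card +
      (((Finset.range B.length).filter (BadAt (-ab A) B B)).card +
      ((Finset.range B.length).filter (BadAt (ab B - ab A) B A)).card) := by
  obtain ⟨ι, hι⟩ : ∃ ι : ((Fin d → ℤ) × Fin d) → (Fin d → ℤ) × Option (Fin d),
      ι = fun e => (e.1, some e.2) := ⟨_, rfl⟩
  obtain ⟨fA, hfA⟩ : ∃ fA : ℕ → (Fin d → ℤ) × Option (Fin d),
      fA = fun k => (ab (A.take k), A[k]?) := ⟨_, rfl⟩
  obtain ⟨fB, hfB⟩ : ∃ fB : ℕ → (Fin d → ℤ) × Option (Fin d),
      fB = fun k => (ab A + ab (B.take k), B[k]?) := ⟨_, rfl⟩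
  have hinj : Function.Injective ι := by
    intro e e' h
    rw [hι] at h
    simp only [Prod.mk.injEq, Option.some.injEq] at h
    exact Prod.ext h.1 h.2
  have hmem : ∀ e : (Fin d → ℤ) × Fin d, e ∈ E (B ++ A) ↔ (e ∈ edges 0 B ∨ e ∈ edges (ab B) A) := by
    intro e
    unfold E
    rw [List.mem_toFinset, edges_append, List.mem_append, zero_add]
  have hmem' : ∀ e : (Fin d → ℤ) × Fin d, e ∈ E (A ++ B) ↔
      (e ∈ edges 0 A ∨ e ∈ edges (ab A) B) := by
    intro e
    unfold E
    rw [List.mem_toFinset, edges_append, List.mem_append, zero_add]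
  have hsub : (E (A ++ B) \ E (B ++ A)).image ι ⊆
      (((Finset.range A.length).filter (BadAt 0 A B)).image fA ∪
      ((Finset.range A.length).filter (BadAt (ab B) A A)).image fA) ∪
      (((Finset.range B.length).filter (BadAt (-ab A) B B)).image fB ∪
      ((Finset.range B.length).filter (BadAt (ab B - ab A) B A)).image fB) := by
    intro x hx
    obtain ⟨e, he, rfl⟩ := Finset.mem_image.1 hx
    rw [Finset.mem_sdiff, hmem', hmem, not_or] at he
    obtain ⟨he1, hn1, hn2⟩ := he
    rw [Finset.mem_union, Finset.mem_union, Finset.mem_union]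
    rcases he1 with h | h
    · left
      obtain ⟨k, hk, rfl⟩ := mem_edges.1 h
      have hx : ι (0 + ab (A.take k), A[k]) = fA k := by
        rw [hι, hfA]
        simp only [zero_add]
        rw [List.getElem?_eq_getElem hk]
      by_cases hkB : k < B.length
      · left
        refine Finset.mem_image.2 ⟨k, Finset.mem_filter.2 ⟨Finset.mem_range.2 hk, ?_⟩, hx.symm⟩
        refine ⟨k, hkB, by simp, fun hs => hn1 ?_⟩
        rw [mem_edges]
        refine ⟨k, hkB, ?_⟩
        obtain ⟨h1, h2⟩ := hs
        rw [List.getElem?_eq_getElem hk, List.getElem?_eq_getElem hkB, Option.some.injEq] at h2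
        rw [h1, h2, zero_add]
      · right
        refine Finset.mem_image.2 ⟨k, Finset.mem_filter.2 ⟨Finset.mem_range.2 hk, ?_⟩, hx.symm⟩
        have hj : k - B.length < A.length := by omega
        refine ⟨k - B.length, hj, ?_, fun hs => hn2 ?_⟩
        · rw [ab_sum]; omega
        rw [mem_edges]
        refine ⟨k - B.length, hj, ?_⟩
        obtain ⟨h1, h2⟩ := hs
        rw [List.getElem?_eq_getElem hk, List.getElem?_eq_getElem hj, Option.some.injEq] at h2
        rw [h1, h2, zero_add]
    · right
      obtain ⟨j, hj, rfl⟩ := mem_edges.1 h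
      have hx : ι (ab A + ab (B.take j), B[j]) = fB j := by
        rw [hι, hfB]
        simp only
        rw [List.getElem?_eq_getElem hj]
      by_cases hkB : A.length + j < B.length
      · left
        refine Finset.mem_image.2 ⟨j, Finset.mem_filter.2 ⟨Finset.mem_range.2 hj, ?_⟩, hx.symm⟩
        refine ⟨A.length + j, hkB, ?_, fun hs => hn1 ?_⟩
        · simp only [Pi.neg_apply, Finset.sum_neg_distrib]
          rw [ab_sum]
          push_cast
          ring
        rw [mem_edges]
        refine ⟨A.length + j, hkB, ?_⟩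
        obtain ⟨h1, h2⟩ := hs
        rw [List.getElem?_eq_getElem hj, List.getElem?_eq_getElem hkB, Option.some.injEq] at h2
        rw [h1, h2]
        congr 1
        abel
      · right
        refine Finset.mem_image.2 ⟨j, Finset.mem_filter.2 ⟨Finset.mem_range.2 hj, ?_⟩, hx.symm⟩
        have hj' : A.length + j - B.length < A.length := by omega
        refine ⟨A.length + j - B.length, hj', ?_, fun hs => hn2 ?_⟩
        · simp only [Pi.sub_apply, Finset.sum_sub_distrib]
          rw [ab_sum, ab_sum]
          omega
        rw [mem_edges]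
        refine ⟨A.length + j - B.length, hj', ?_⟩
        obtain ⟨h1, h2⟩ := hs
        rw [List.getElem?_eq_getElem hj, List.getElem?_eq_getElem hj', Option.some.injEq] at h2
        rw [h1, h2]
        congr 1
        abel
  unfold dif
  rw [← Finset.card_image_of_injective _ hinj]
  refine (Finset.card_le_card hsub).trans ((Finset.card_union_le _ _).trans ?_)
  refine Nat.add_le_add ((Finset.card_union_le _ _).trans ?_) ((Finset.card_union_le _ _).trans ?_)
  · exact Nat.add_le_add Finset.card_image_le Finset.card_image_le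
  · exact Nat.add_le_add Finset.card_image_le Finset.card_image_le

/-- **The converse.** -/
theorem cst_small {σ : Fin d → List (Fin d)} (P : PD (inc σ)) (hS : SemiConjToral σ)
    {ε : ℝ} (hε : 0 < ε) : ∃ n₀ : ℕ, ∀ n ≥ n₀, ∀ x y,
      (cst (iter σ n) x y : ℝ) ≤ ε * P.lam ^ n := by
  classical
  have hkey : ∀ x y : Fin d, ∀ᶠ n : ℕ in Filter.atTop,
      (cst (iter σ n) x y : ℝ) ≤ ε * P.lam ^ n := by
    intro x y
    have hε4 : 0 < ε / 4 := by linarith
    obtain ⟨n₁, h1⟩ := pair_close P hS x y 0 hε4
    obtain ⟨n₂, h2⟩ := pair_close P hS x x (ev y) hε4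
    obtain ⟨n₃, h3⟩ := pair_close P hS y y (-ev x) hε4
    obtain ⟨n₄, h4⟩ := pair_close P hS y x (ev y - ev x) hε4
    filter_upwards [Filter.eventually_ge_atTop n₁, Filter.eventually_ge_atTop n₂,
      Filter.eventually_ge_atTop n₃, Filter.eventually_ge_atTop n₄] with n hn1 hn2 hn3 hn4
    have g1 := h1 n hn1
    have g2 := h2 n hn2
    have g3 := h3 n hn3
    have g4 := h4 n hn4
    have e : ∀ a, ((inc σ) ^ n).mulVec (ev a) = ab (iter σ n a) := by
      intro a
      rw [← inc_iter]
      exact (ab_subst (iter σ n) a).symm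
    rw [Matrix.mulVec_zero] at g1
    rw [e] at g2
    rw [Matrix.mulVec_neg, e] at g3
    rw [Matrix.mulVec_sub, e, e] at g4
    have h : cst (iter σ n) x y = dif (iter σ n x ++ iter σ n y) (iter σ n y ++ iter σ n x) := by
      unfold cst dS
      simp [ext]
    rw [h]
    have h5 : (dif (iter σ n x ++ iter σ n y) (iter σ n y ++ iter σ n x) : ℝ) ≤ _ :=
      Nat.cast_le.2 (dif_four (iter σ n x) (iter σ n y))
    push_cast at h5
    linarith
  have hall := Filter.eventually_all.2 fun x => Filter.eventually_all.2 (hkey x)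
  exact Filter.eventually_atTop.1 hall

end Pool.Agent.Q132.AB
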