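import Pool.Agent.Q132.AB.Cert

/-!
Compositions in which one good substitution has density close to one.
-/

set_option autoImplicit false

namespace Pool.Agent.Q132.AB
open Pool.Agent.H812R2.PI Pool.Agent.Q132.PT
open scoped BigOperators
variable {m : ℕ}

/-- **Block theorem, multiplicative form.** -/
theorem block_raw {σ : Fin (m+1) → List (Fin (m+1))} (P : PD (inc σ)) (hS : SemiConjToral σ) :
    ∃ R : ℝ, 0 < R ∧ ∃ K : ℕ, 1 ≤ K ∧ ∃ g : ℝ, 0 < g ∧
      ∀ (T : Fin (m+1) → List (Fin (m+1))) (L : ℝ), (inc T).det ≠ 0 →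
        (∀ a, ((T a).length : ℝ) ≤ L) →
        Cp (rR R) w1 (L / 2) (inc (comp T (iter σ K))) ∧
        (∀ j, g ≤ ((comp T (iter σ K) j).length : ℝ)) ∧
        ∀ (S' : Fin (m+1) → List (Fin (m+1))) (K' : ℝ), 0 ≤ K' →
          (∀ x y, (cst S' x y : ℝ) ≤ K') → ∀ x y,
          (cst (comp S' (comp T (iter σ K))) x y : ℝ) ≤ L ^ 2 * (g / 2) * K' := by
  have hlam := P.lam_gt
  have hlam0 : 0 < P.lam := by linarith
  obtain ⟨B, hB0, hB⟩ := cst_comp_iter_real P
  obtain ⟨C, θ, hC0, hθ0, hθ1, hCθ⟩ := cst_exp P hS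
  obtain ⟨R, hR0, K₁, hK₁⟩ := pow_shape P
  obtain ⟨C', hC'0, hC'⟩ := ker_small P
  obtain ⟨c, C₂, hc, -, hlen⟩ := length_iter_bounds P
  have hρ0 := P.rho_nonneg
  have hρ1 := P.rho_lt
  obtain ⟨K₂, hK₂⟩ := geom_small (t := θ / P.lam) (by positivity)
    ((div_lt_one hlam0).2 hθ1) (B * C) (ε := c / 2) (by linarith)
  obtain ⟨K₃, hK₃⟩ := geom_small hρ0 hρ1 ((m + 1) * C' * (1 + R)) (ε := 1 / 2) (by norm_num)
  obtain ⟨k, hk1, hk1', hk2, hk3⟩ : ∃ k, K₁ ≤ k ∧ 1 ≤ k ∧ K₂ ≤ k ∧ K₃ ≤ k :=
    ⟨max (max K₁ 1) (max K₂ K₃), (le_max_left _ _).trans (le_max_left _ _),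
      (le_max_right _ _).trans (le_max_left _ _), (le_max_left _ _).trans (le_max_right _ _),
      (le_max_right _ _).trans (le_max_right _ _)⟩
  have hLk : 0 < P.lam ^ k := pow_pos hlam0 k
  have h3 := hK₂ k hk2
  rw [div_pow, ← mul_div_assoc, div_le_iff₀ hLk] at h3
  refine ⟨R, hR0, k, hk1', c * P.lam ^ k, by positivity, fun T L hdet hL => ?_⟩
  have hL0 : 0 ≤ L := le_trans (Nat.cast_nonneg _) (hL 0)
  refine ⟨?_, fun j => ?_, fun S' K' hK'0 hK' x y => ?_⟩
  · rw [inc_comp, inc_iter]
    refine blk_con P hR0 (hK₁ k hk1) hC'0 (fun h x => hC' k h x) T hdet hL ?_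
    have h1 := mul_le_mul_of_nonneg_left (hK₃ k hk3) hL0
    calc (m + 1) * L * (C' * P.rho ^ k * (1 + R)) = L * ((m + 1) * C' * (1 + R) * P.rho ^ k) := by
          ring
      _ ≤ L * (1 / 2) := h1
      _ = L / 2 := by ring
  · have h1 := ext_len_ge T (len_ge_one T hdet) (iter σ k j)
    rw [one_mul] at h1
    exact (hlen k j).1.trans h1
  · rw [← comp_assoc]
    have h4 := hB k hk1' (comp S' T) (L ^ 2 * K') (by positivity) (cst_comp_len S' T hK'0 hK' hL)
      (C * θ ^ k) (hCθ k) x y
    refine h4.trans ?_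
    have h5 := mul_le_mul_of_nonneg_left h3 (by positivity : 0 ≤ L ^ 2 * K')
    calc L ^ 2 * K' * (B * (C * θ ^ k)) = L ^ 2 * K' * (B * C * θ ^ k) := by ring
      _ ≤ L ^ 2 * K' * (c / 2 * P.lam ^ k) := h5
      _ = _ := by ring

/-- growth at least `γ`, cost factor at most `f` -/
structure FBlk (S : Fin (m+1) → List (Fin (m+1))) (f γ : ℝ) : Prop where
  fpos : 0 ≤ f
  pos : 0 < γ
  len : ∀ j, γ ≤ ((S j).length : ℝ)
  cost : ∀ (S' : Fin (m+1) → List (Fin (m+1))) (K' : ℝ), 0 ≤ K' →
    (∀ x y, (cst S' x y : ℝ) ≤ K') → ∀ x y, (cst (comp S' S) x y : ℝ) ≤ f * K'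

theorem FBlk.one : FBlk (fun a : Fin (m+1) => [a]) 1 1 := by
  refine ⟨zero_le_one, one_pos, fun j => by simp, fun S' K' _ hK' x y => ?_⟩
  rw [comp_id_right, one_mul]
  exact hK' x y

theorem FBlk.mul {S T : Fin (m+1) → List (Fin (m+1))} {f γ f' γ' : ℝ} (hS : FBlk S f γ)
    (hT : FBlk T f' γ') : FBlk (comp S T) (f * f') (γ * γ') := by
  refine ⟨mul_nonneg hS.fpos hT.fpos, mul_pos hS.pos hT.pos, fun j => ?_,
    fun S' K' hK'0 hK' x y => ?_⟩
  · have h1 := ext_len_ge S hS.len (T j)
    exact (mul_le_mul_of_nonneg_left (hT.len j) hS.pos.le).trans h1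
  · rw [← comp_assoc]
    have h1 := hT.cost (comp S' S) (f * K') (mul_nonneg hS.fpos hK'0) (hS.cost S' K' hK'0 hK') x y
    refine h1.trans (le_of_eq ?_)
    ring

/-- the conjecture for one block -/
theorem FBlk.semi {S : Fin (m+1) → List (Fin (m+1))} {f γ : ℝ} (h : FBlk S f γ) (hlt : f < γ)
    (hM : PisotMat (inc S)) : SemiConjToral S := by
  obtain ⟨P⟩ := Pool.Agent.Q132.PC.exists_PD' (inc S) (fun i j => by unfold inc; positivity) hM
  have hU : Uni S := hM.2.1
  have hlam : γ ≤ P.lam := lam_ge P S rfl γ h.len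
  obtain ⟨C, hC⟩ : ∃ C : ℝ, ∀ x y, (cst (iter S 0) x y : ℝ) ≤ C := by
    obtain ⟨C, hC⟩ := (Set.finite_range fun p : Fin (m+1) × Fin (m+1) =>
      (cst (iter S 0) p.1 p.2 : ℝ)).bddAbove
    exact ⟨C, fun x y => hC ⟨(x, y), rfl⟩⟩
  have hcost : ∀ n x y, (cst (iter S n) x y : ℝ) ≤ |C| * f ^ n := by
    intro n
    induction n with
    | zero => intro x y; rw [pow_zero, mul_one]; exact (hC x y).trans (le_abs_self _)
    | succ n ih =>
      intro x y
      have h1 : iter S (n + 1) = comp (iter S n) S := by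
        funext a
        have h2 : iter S (n + 1) a = ext (iter S n) (iter S 1 a) := iter_add _ n 1 a
        rw [h2]
        have h3 : iter S 1 a = S a := by simp [iter, ext]
        rw [h3]
        rfl
      rw [h1]
      refine (h.cost (iter S n) (|C| * f ^ n) (mul_nonneg (abs_nonneg _) (pow_nonneg h.fpos n))
        ih x y).trans (le_of_eq ?_)
      ring
  refine semi_of_small P hU.unit fun ε hε => ?_
  obtain ⟨n₀, hn₀⟩ := small_of_geom (C := |C|) P.lam_gt h.fpos (lt_of_lt_of_le hlt hlam)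
    (fun n => |C| * f ^ n) (fun n => le_rfl) ε hε
  exact ⟨n₀, fun n hn x y => (hcost n x y).trans (hn₀ n hn)⟩

open Classical in
/-- number of factors different from `D` -/
noncomputable def nb (D : Fin (m+1) → List (Fin (m+1))) :
    List (Fin (m+1) → List (Fin (m+1))) → ℕ
  | [] => 0
  | c :: cs => (if c = D then 0 else 1) + nb D cs

open Classical in
/-- number of factors equal to `D` -/
noncomputable def ng (D : Fin (m+1) → List (Fin (m+1))) :
    List (Fin (m+1) → List (Fin (m+1))) → ℕ
  | [] => 0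
  | c :: cs => (if c = D then 1 else 0) + ng D cs

theorem nb_add_ng (D : Fin (m+1) → List (Fin (m+1))) (cs : List (Fin (m+1) → List (Fin (m+1)))) :
    nb D cs + ng D cs = cs.length := by
  induction cs with
  | nil => rfl
  | cons c cs ih =>
    unfold nb ng
    rw [List.length_cons]
    split_ifs <;> omega

theorem nb_append (D : Fin (m+1) → List (Fin (m+1)))
    (a b : List (Fin (m+1) → List (Fin (m+1)))) : nb D (a ++ b) = nb D a + nb D b := by
  induction a with
  | nil => simp [nb]
  | cons c a ih =>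
    rw [List.cons_append]
    simp only [nb]
    rw [ih, Nat.add_assoc]

/-- the letters of a chunk list -/
def CL (D : Fin (m+1) → List (Fin (m+1))) (Λ : ℝ) (c : Fin (m+1) → List (Fin (m+1))) : Prop :=
  c = D ∨ (Uni c ∧ ∀ a, ((c a).length : ℝ) ≤ Λ)

theorem chunks_cp {R Λ : ℝ} (hΛ : 1 ≤ Λ) {D : Fin (m+1) → List (Fin (m+1))}
    (hblk : ∀ (T : Fin (m+1) → List (Fin (m+1))) (L : ℝ), (inc T).det ≠ 0 →
      (∀ a, ((T a).length : ℝ) ≤ L) → Cp (rR R) w1 (L / 2) (inc (comp T D)))
    (cs : List (Fin (m+1) → List (Fin (m+1)))) (hcs : ∀ c ∈ cs, CL D Λ c) :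
    ∀ (T : Fin (m+1) → List (Fin (m+1))) (j : ℕ), Uni T → (∀ a, ((T a).length : ℝ) ≤ Λ ^ j) →
      (cs.getLast? = some D ∨ (cs = [] ∧ T = (fun a => [a]) ∧ j = 0)) →
      Cp (rR R) w1 (Λ ^ (j + nb D cs) * (1 / 2) ^ (ng D cs)) (inc (comp T (compList cs))) := by
  have hΛ0 : 0 ≤ Λ := by linarith
  induction cs with
  | nil =>
    intro T j _ _ h
    rcases h with h | ⟨-, rfl, rfl⟩
    · simp at h
    · simp only [compList, nb, ng, Nat.add_zero, pow_zero, one_mul]
      rw [comp_id_left, JComp_inc_id]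
      exact cp_one'
  | cons c cs ih =>
    intro T j hT hL h
    have hlast : (c :: cs).getLast? = some D := by
      rcases h with h | ⟨h, -⟩
      · exact h
      · simp at h
    have ih' := ih fun c' hc' => hcs c' (List.mem_cons_of_mem _ hc')
    by_cases hc : c = D
    · simp only [compList, nb, ng]
      rw [if_pos hc, if_pos hc, ← comp_assoc, hc]
      have h2 := ih' (fun a => [a]) 0 (by left; rw [JComp_inc_id, Matrix.det_one])
        (fun a => by simp) (by
          cases cs with
          | nil => exact Or.inr ⟨rfl, rfl, rfl⟩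
          | cons e es => left; rwa [List.getLast?_cons_cons] at hlast)
      rw [comp_id_left] at h2
      have h3 := Cp.mul (hblk T (Λ ^ j) hT.ne hL) h2 (by positivity)
      rw [inc_comp]
      have h4 : Λ ^ j / 2 * (Λ ^ (0 + nb D cs) * (1 / 2) ^ ng D cs) =
          Λ ^ (j + (0 + nb D cs)) * (1 / 2) ^ (1 + ng D cs) := by
        rw [pow_add Λ j, pow_add (1/2 : ℝ) 1]
        ring
      rw [h4] at h3
      exact h3
    · simp only [compList, nb, ng]
      rw [if_neg hc, if_neg hc, ← comp_assoc]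
      obtain ⟨hcU, hcL⟩ := (hcs c (List.mem_cons_self ..)).resolve_left hc
      have h2 := ih' (comp T c) (j + 1) (hT.comp hcU) (fun a => by
        rw [pow_succ]
        exact len_comp T c hL hcL a) (by
          cases cs with
          | nil =>
            exfalso
            simp at hlast
            exact hc hlast
          | cons e es => left; rwa [List.getLast?_cons_cons] at hlast)
      rw [show j + (1 + nb D cs) = j + 1 + nb D cs by ring, Nat.zero_add]
      exact h2

theorem chunks_F {Λ g : ℝ} (hΛ : 1 ≤ Λ) {D : Fin (m+1) → List (Fin (m+1))}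
    (hD : FBlk D (g / 2) g) (cs : List (Fin (m+1) → List (Fin (m+1))))
    (hcs : ∀ c ∈ cs, CL D Λ c) :
    ∃ γ, FBlk (compList cs) (Λ ^ (2 * nb D cs) * (1 / 2) ^ (ng D cs) * γ) γ := by
  have hΛ0 : 0 ≤ Λ := by linarith
  induction cs with
  | nil =>
    refine ⟨1, ?_⟩
    simp only [compList, nb, ng, Nat.mul_zero, pow_zero, mul_one]
    exact FBlk.one
  | cons c cs ih =>
    obtain ⟨γ, h⟩ := ih fun c' hc' => hcs c' (List.mem_cons_of_mem _ hc')
    by_cases hc : c = D
    · refine ⟨g * γ, ?_⟩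
      simp only [compList, nb, ng]
      rw [if_pos hc, if_pos hc, hc]
      have h1 := hD.mul h
      have h2 : g / 2 * (Λ ^ (2 * nb D cs) * (1 / 2) ^ ng D cs * γ) =
          Λ ^ (2 * (0 + nb D cs)) * (1 / 2) ^ (1 + ng D cs) * (g * γ) := by
        rw [Nat.zero_add, pow_add (1/2 : ℝ) 1]
        ring
      rw [h2] at h1
      exact h1
    · obtain ⟨hcU, hcL⟩ := (hcs c (List.mem_cons_self ..)).resolve_left hc
      refine ⟨1 * γ, ?_⟩
      simp only [compList, nb, ng]
      rw [if_neg hc, if_neg hc]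
      have h0 : FBlk c (Λ ^ 2) 1 := by
        refine ⟨by positivity, one_pos, fun j => len_ge_one c hcU.ne j,
          fun S' K' hK'0 hK' x y => cst_comp_len S' c hK'0 hK' hcL x y⟩
      have h1 := h0.mul h
      have h2 : Λ ^ 2 * (Λ ^ (2 * nb D cs) * (1 / 2) ^ ng D cs * γ) =
          Λ ^ (2 * (1 + nb D cs)) * (1 / 2) ^ (0 + ng D cs) * (1 * γ) := by
        rw [Nat.zero_add, show 2 * (1 + nb D cs) = 2 + 2 * nb D cs by ring, pow_add Λ 2]
        ring
      rw [h2] at h1
      exact h1

/-- cut into chunks -/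
def chunk (K : ℕ) : ℕ → List (Fin (m+1) → List (Fin (m+1))) → List (Fin (m+1) → List (Fin (m+1)))
  | 0, _ => []
  | q + 1, w => compList (w.take K) :: chunk K q (w.drop K)

theorem chunk_length (K q : ℕ) (w : List (Fin (m+1) → List (Fin (m+1)))) :
    (chunk K q w).length = q := by
  induction q generalizing w with
  | zero => rfl
  | succ q ih => simp [chunk, ih]

theorem chunk_comp (K q : ℕ) (w : List (Fin (m+1) → List (Fin (m+1)))) (h : w.length = q * K) :
    compList (chunk K q w) = compList w := by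
  induction q generalizing w with
  | zero =>
    rw [Nat.zero_mul] at h
    rw [List.eq_nil_of_length_eq_zero h]
    rfl
  | succ q ih =>
    simp only [chunk, compList]
    rw [ih (w.drop K) (by rw [List.length_drop, h, Nat.succ_mul]; omega), ← compList_append,
      List.take_append_drop]

theorem replicate_of_nb {σ : Fin (m+1) → List (Fin (m+1))}
    (w : List (Fin (m+1) → List (Fin (m+1)))) (h : nb σ w = 0) : w = List.replicate w.length σ := by
  induction w with
  | nil => rfl
  | cons c w ih =>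
    unfold nb at h
    have h1 : c = σ := by
      by_contra hc
      rw [if_neg hc] at h
      omega
    rw [List.length_cons, List.replicate_succ, ← ih (by omega), h1]

theorem compList_replicate (σ : Fin (m+1) → List (Fin (m+1))) (K : ℕ) :
    compList (List.replicate K σ) = iter σ K := by
  induction K with
  | zero => rfl
  | succ K ih =>
    rw [List.replicate_succ]
    simp only [compList]
    rw [ih]
    funext a
    exact (iter_succ σ K a).symm

theorem chunk_nb {σ : Fin (m+1) → List (Fin (m+1))} (K q : ℕ)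
    (w : List (Fin (m+1) → List (Fin (m+1)))) (h : w.length = q * K) :
    nb (iter σ K) (chunk K q w) ≤ nb σ w := by
  induction q generalizing w with
  | zero => exact Nat.zero_le _
  | succ q ih =>
    have h1 := ih (w.drop K) (by rw [List.length_drop, h, Nat.succ_mul]; omega)
    have h2 : nb σ w = nb σ (w.take K) + nb σ (w.drop K) := by
      rw [← nb_append, List.take_append_drop]
    rw [h2]
    simp only [chunk, nb]
    refine Nat.add_le_add ?_ h1
    by_cases h3 : nb σ (w.take K) = 0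
    · have h4 := replicate_of_nb _ h3
      have h5 : (w.take K).length = K := by
        rw [List.length_take, h, Nat.succ_mul]
        omega
      rw [h5] at h4
      rw [h4, compList_replicate, if_pos rfl]
      exact Nat.zero_le _
    · split_ifs
      · exact Nat.zero_le _
      · omega

theorem chunk_mem (K q : ℕ) (w : List (Fin (m+1) → List (Fin (m+1))))
    (c : Fin (m+1) → List (Fin (m+1))) (h : c ∈ chunk K q w) :
    ∃ u : List (Fin (m+1) → List (Fin (m+1))), u.length ≤ K ∧ (∀ S ∈ u, S ∈ w) ∧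
      c = compList u := by
  induction q generalizing w with
  | zero => simp [chunk] at h
  | succ q ih =>
    simp only [chunk] at h
    rcases List.mem_cons.1 h with rfl | h
    · exact ⟨w.take K, by rw [List.length_take]; exact min_le_left _ _,
        fun S hS => List.mem_of_mem_take hS, rfl⟩
    · obtain ⟨u, h1, h2, h3⟩ := ih _ h
      exact ⟨u, h1, fun S hS => List.mem_of_mem_drop (h2 S hS), h3⟩

theorem len_word {L : ℝ} (u : List (Fin (m+1) → List (Fin (m+1))))
    (h : ∀ S ∈ u, ∀ a, ((S a).length : ℝ) ≤ L) (a : Fin (m+1)) :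
    ((compList u a).length : ℝ) ≤ L ^ u.length := by
  induction u generalizing a with
  | nil => simp [compList]
  | cons S u ih =>
    rw [List.length_cons, pow_succ']
    simp only [compList]
    exact len_comp S (compList u) (h S (List.mem_cons_self ..))
      (fun a => ih (fun T hT => h T (List.mem_cons_of_mem _ hT)) a) a

theorem exists_run {σ : Fin (m+1) → List (Fin (m+1))} (K q : ℕ)
    (w : List (Fin (m+1) → List (Fin (m+1)))) (hlen : q * K ≤ w.length) (h : nb σ w < q) :
    ∃ u v, w = u ++ List.replicate K σ ++ v := by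
  induction q generalizing w with
  | zero => omega
  | succ q ih =>
    rw [Nat.succ_mul] at hlen
    have h2 : nb σ w = nb σ (w.take K) + nb σ (w.drop K) := by
      rw [← nb_append, List.take_append_drop]
    by_cases h3 : nb σ (w.take K) = 0
    · have h4 := replicate_of_nb _ h3
      have h5 : (w.take K).length = K := by
        rw [List.length_take]
        omega
      rw [h5] at h4
      refine ⟨[], w.drop K, ?_⟩
      rw [← h4, List.nil_append, List.take_append_drop]
    · obtain ⟨u, v, huv⟩ := ih (w.drop K) (by rw [List.length_drop]; omega) (by omega)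
      refine ⟨w.take K ++ u, v, ?_⟩
      conv_lhs => rw [← List.take_append_drop K w, huv]
      simp

theorem getLast_snoc (l : List (Fin (m+1) → List (Fin (m+1)))) (D : Fin (m+1) → List (Fin (m+1))) :
    (l ++ [D]).getLast? = some D := by simp

theorem iter_iter (σ : Fin (m+1) → List (Fin (m+1))) (K k : ℕ) :
    iter (iter σ K) k = iter σ (K * k) := by
  induction k with
  | zero => rw [Nat.mul_zero]; funext a; rfl
  | succ k ih =>
    funext a
    have h1 : iter (iter σ K) (k + 1) a = ext (iter (iter σ K) k) (iter (iter σ K) 1 a) :=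
      iter_add _ k 1 a
    have h2 : iter σ (K * k + K) a = ext (iter σ (K * k)) (iter σ K a) := iter_add _ _ _ a
    have h3 : iter (iter σ K) 1 a = iter σ K a := by
      simp [iter, ext]
    rw [Nat.mul_succ, h1, h2, ih, h3]

/-- powers of good substitutions are good -/
theorem Good.pow {σ : Fin (m+1) → List (Fin (m+1))} (hσ : Good σ) {n : ℕ} (hn : 1 ≤ n) :
    Good (iter σ n) := by
  obtain ⟨P⟩ := hσ.pd
  have hpow : PisotMat (inc (iter σ n)) := by
    rw [inc_iter]
    exact Pool.Agent.TH100.Pisot.pisotMat_pow _ (fun i j => by unfold inc; positivity) hσ.1 _ hn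
  refine ⟨hpow, ?_⟩
  obtain ⟨C, θ, hC0, hθ0, hθ1, hCθ⟩ := cst_exp P hσ.2
  obtain ⟨P'⟩ := Pool.Agent.Q132.PC.exists_PD' (inc (iter σ n))
    (fun i j => by unfold inc; positivity) hpow
  have hlam : P.lam ^ n = P'.lam := by
    refine lam_unique P' (P.lam ^ n) P.ell P.ell_pos fun j => ?_
    rw [inc_iter]
    exact (P.pow n hn).ell_M j
  have hU : Uni (iter σ n) := hpow.2.1
  refine semi_of_small P' hU.unit fun ε hε => ?_
  obtain ⟨n₀, hn₀⟩ := small_of_geom (C := C) (Θ := θ ^ n) P'.lam_gt (by positivity)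
    (by rw [← hlam]; exact pow_lt_pow_left₀ hθ1 hθ0.le (by omega))
    (fun q => C * (θ ^ n) ^ q) (fun q => le_rfl) ε hε
  refine ⟨n₀, fun q hq x y => ?_⟩
  refine le_trans ?_ (hn₀ q hq)
  have h1 := hCθ (n * q) x y
  rw [pow_mul] at h1
  rw [iter_iter]
  exact h1

/-- **Density theorem.** -/
theorem density (hm : 1 ≤ m) {σ : Fin (m+1) → List (Fin (m+1))} (hσ : Good σ)
    (F : Finset (Fin (m+1) → List (Fin (m+1)))) (hF : ∀ T ∈ F, Uni T) :
    ∃ η : ℝ, 0 < η ∧ ∀ w : List (Fin (m+1) → List (Fin (m+1))), w ≠ [] →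
      (∀ S ∈ w, S = σ ∨ S ∈ F) → (nb σ w : ℝ) ≤ η * w.length → Good (compList w) := by
  classical
  obtain ⟨P⟩ := hσ.pd
  obtain ⟨R, hR0, K, hK1, g, hg0, hblk⟩ := block_raw P hσ.2
  obtain ⟨D, hD⟩ : ∃ D, D = iter σ K := ⟨_, rfl⟩
  rw [← hD] at hblk
  have hσU : Uni σ := hσ.1.2.1
  have hDF : FBlk D (g / 2) g := by
    obtain ⟨-, h2, h3⟩ := hblk (fun a => [a]) 1 (by rw [JComp_inc_id, Matrix.det_one]; norm_num)
      (fun a => by simp)
    rw [comp_id_left] at h2 h3
    refine ⟨by linarith, hg0, h2, fun S' K' hK'0 hK' x y => ?_⟩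
    have := h3 S' K' hK'0 hK' x y
    rw [one_pow, one_mul] at this
    exact this
  -- lengths
  obtain ⟨L, hL1, hL⟩ : ∃ L : ℝ, 1 ≤ L ∧ ∀ S, (S = σ ∨ S ∈ F) → ∀ a, ((S a).length : ℝ) ≤ L := by
    obtain ⟨L₁, hL₁⟩ : ∃ L : ℝ, ∀ T ∈ insert σ F, ∀ a, ((T a).length : ℝ) ≤ L := by
      obtain ⟨L, hL⟩ := ((insert σ F).finite_toSet.prod
        (Set.finite_univ (α := Fin (m+1)))).image (fun p => ((p.1 p.2).length : ℝ)) |>.bddAbove
      exact ⟨L, fun T hT a => hL ⟨(T, a), ⟨hT, Set.mem_univ a⟩, rfl⟩⟩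
    refine ⟨max 1 L₁, le_max_left _ _, fun S hS a => (hL₁ S ?_ a).trans (le_max_right _ _)⟩
    rcases hS with rfl | hS
    · exact Finset.mem_insert_self _ _
    · exact Finset.mem_insert_of_mem hS
  have hU : ∀ S, (S = σ ∨ S ∈ F) → Uni S := by
    rintro S (rfl | hS)
    · exact hσU
    · exact hF S hS
  obtain ⟨Λ, hΛ⟩ : ∃ Λ : ℝ, Λ = L ^ K := ⟨_, rfl⟩
  have hΛ1 : 1 ≤ Λ := by rw [hΛ]; exact one_le_pow₀ hL1
  have hΛ0 : 0 < Λ := by linarith
  have hchunk : ∀ u : List (Fin (m+1) → List (Fin (m+1))), u.length ≤ K →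
      (∀ S ∈ u, S = σ ∨ S ∈ F) → CL D Λ (compList u) := by
    intro u hu hS
    right
    refine ⟨Uni.list u fun S h => hU S (hS S h), fun a => ?_⟩
    refine (len_word u (fun S h => hL S (hS S h)) a).trans ?_
    rw [hΛ]
    exact pow_le_pow_right₀ hL1 hu
  obtain ⟨b, hb⟩ : ∃ b : ℕ, Λ ^ 2 ≤ 2 ^ b := by
    obtain ⟨b, hb⟩ := pow_unbounded_of_one_lt (Λ ^ 2) (by norm_num : (1:ℝ) < 2)
    exact ⟨b, hb.le⟩
  have hKR : (0:ℝ) < K := by exact_mod_cast hK1
  refine ⟨1 / (K * (2 * b + 4)), by positivity, fun w hne hw hcnt => ?_⟩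
  rcases Nat.eq_zero_or_pos (nb σ w) with ht | ht
  · -- a power
    have h1 := replicate_of_nb w ht
    have hn : 1 ≤ w.length := List.length_pos_iff.2 hne
    rw [h1, compList_replicate]
    exact hσ.pow hn
  · -- the length
    obtain ⟨t, htd⟩ : ∃ t, t = nb σ w := ⟨_, rfl⟩
    obtain ⟨n, hnd⟩ : ∃ n, n = w.length := ⟨_, rfl⟩
    rw [← htd] at ht hcnt
    rw [← hnd] at hcnt
    have hn : K * (t * (2 * b + 4)) ≤ n := by
      rw [one_div, inv_mul_eq_div, le_div_iff₀ (by positivity)] at hcnt
      have : ((K * (t * (2 * b + 4)) : ℕ) : ℝ) ≤ (n : ℝ) := by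
        push_cast
        linarith
      exact_mod_cast this
    obtain ⟨q, hq⟩ : ∃ q, q = n / K := ⟨_, rfl⟩
    obtain ⟨r, hr⟩ : ∃ r, r = n % K := ⟨_, rfl⟩
    have hrK : r < K := by rw [hr]; exact Nat.mod_lt _ hK1
    have hnqr : n = r + q * K := by
      rw [hr, hq, mul_comm (n / K) K, Nat.mod_add_div]
    have hqt : t * (2 * b + 4) ≤ q := by
      rw [hq]
      exact (Nat.le_div_iff_mul_le hK1).2 (by rw [mul_comm]; exact hn)
    have hqt' : b * (1 + t) < q - t := by
      have h1 : b * 1 ≤ b * t := Nat.mul_le_mul_left b ht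
      have h2 : t * (2 * b + 4) = 2 * (b * t) + 4 * t := by ring
      have h3 : b * (1 + t) = b * 1 + b * t := by ring
      omega
    have htq : t < q := by omega
    -- smallness
    have hsmall : ∀ x y : ℕ, x ≤ 1 + t → q - t ≤ y → Λ ^ (2 * x) * (1 / 2) ^ y < 1 := by
      intro x y hx hy
      have h1 : Λ ^ (2 * x) ≤ 2 ^ (b * (1 + t)) := by
        rw [pow_mul, pow_mul]
        calc (Λ ^ 2) ^ x ≤ (2 ^ b) ^ x := pow_le_pow_left₀ (by positivity) hb x
          _ ≤ (2 ^ b) ^ (1 + t) := pow_le_pow_right₀ (one_le_pow₀ (by norm_num)) hx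
      have h2 : (2:ℝ) ^ (b * (1 + t)) < 2 ^ y :=
        pow_lt_pow_right₀ (by norm_num) (lt_of_lt_of_le hqt' hy)
      calc Λ ^ (2 * x) * (1 / 2) ^ y ≤ 2 ^ (b * (1 + t)) * (1 / 2) ^ y :=
            mul_le_mul_of_nonneg_right h1 (by positivity)
        _ < 2 ^ y * (1 / 2) ^ y := mul_lt_mul_of_pos_right h2 (by positivity)
        _ = 1 := by rw [← mul_pow]; norm_num
    obtain ⟨u, v, huv⟩ := exists_run K q w (by rw [← hnd, hnqr]; omega) (by rw [← htd]; exact htq)
    obtain ⟨x, hx⟩ : ∃ x, x = v ++ u := ⟨_, rfl⟩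
    have hxw : ∀ S ∈ x, S = σ ∨ S ∈ F := by
      intro S hS
      refine hw S ?_
      rw [huv]
      rw [hx] at hS
      simp only [List.mem_append] at hS ⊢
      tauto
    have hxlen : x.length = r + (q - 1) * K := by
      have h1 : w.length = u.length + K + v.length := by rw [huv]; simp; ring
      rw [← hnd, hnqr] at h1
      rw [hx, List.length_append]
      obtain ⟨q', rfl⟩ : ∃ q', q = q' + 1 := ⟨q - 1, by omega⟩
      rw [Nat.succ_mul] at h1
      rw [Nat.add_sub_cancel]
      omega
    have hxnb : nb σ x ≤ t := by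
      have h1 : nb σ w = nb σ u + nb σ (List.replicate K σ) + nb σ v := by
        rw [huv, nb_append, nb_append]
      rw [hx, nb_append]
      omega
    -- the rotated composition
    obtain ⟨cs, hcs⟩ : ∃ cs, cs = compList (x.take r) :: chunk K (q - 1) (x.drop r) := ⟨_, rfl⟩
    have hdrop : (x.drop r).length = (q - 1) * K := by rw [List.length_drop, hxlen]; omega
    have hcsx : compList cs = compList x := by
      rw [hcs]
      simp only [compList]
      rw [chunk_comp K _ _ hdrop, ← compList_append, List.take_append_drop]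
    have hcsL : ∀ c ∈ cs ++ [D], CL D Λ c := by
      intro c hc
      rcases List.mem_append.1 hc with hc | hc
      · rw [hcs] at hc
        rcases List.mem_cons.1 hc with rfl | hc
        · exact hchunk _ (by rw [List.length_take]; omega)
            fun S hS => hxw S (List.mem_of_mem_take hS)
        · obtain ⟨y, h1, h2, rfl⟩ := chunk_mem _ _ _ _ hc
          exact hchunk y h1 fun S hS => hxw S (List.mem_of_mem_drop (h2 S hS))
      · rw [List.mem_singleton] at hc
        exact Or.inl hc
    have hcsnb : nb D (cs ++ [D]) ≤ 1 + t := by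
      rw [nb_append, hcs]
      simp only [nb]
      rw [if_pos trivial]
      have h1 := chunk_nb (σ := σ) K (q - 1) (x.drop r) hdrop
      rw [← hD] at h1
      have h2 : nb σ x = nb σ (x.take r) + nb σ (x.drop r) := by
        rw [← nb_append, List.take_append_drop]
      split_ifs <;> omega
    have hcslen : (cs ++ [D]).length = q + 1 := by
      rw [hcs]
      simp [chunk_length]
      omega
    have hcsng : q - t ≤ ng D (cs ++ [D]) := by
      have := nb_add_ng D (cs ++ [D])
      omega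
    have hcp := chunks_cp hΛ1 (fun T L h1 h2 => (hblk T L h1 h2).1) (cs ++ [D]) hcsL
      (fun a => [a]) 0 (by left; rw [JComp_inc_id, Matrix.det_one]) (fun a => by simp)
      (Or.inl (getLast_snoc cs D))
    rw [comp_id_left, Nat.zero_add] at hcp
    have hκ0 : 0 ≤ Λ ^ nb D (cs ++ [D]) * (1 / 2) ^ ng D (cs ++ [D]) := by positivity
    have hκ1 : Λ ^ nb D (cs ++ [D]) * (1 / 2) ^ ng D (cs ++ [D]) < 1 := by
      refine lt_of_le_of_lt ?_ (hsmall _ _ hcsnb hcsng)
      refine mul_le_mul_of_nonneg_right ?_ (by positivity)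
      exact pow_le_pow_right₀ hΛ1 (by omega)
    have hrot : compList (cs ++ [D]) = comp (compList v) (comp (compList u) D) := by
      rw [compList_append, hcsx, hx, compList_append, comp_assoc]
      simp only [compList]
      rw [comp_id_right]
    have hwc : compList w = comp (comp (compList u) D) (compList v) := by
      rw [huv, compList_append, compList_append, compList_replicate, ← hD]
    have hUw : Uni (compList w) := Uni.list w fun S hS => hU S (hw S hS)
    have hUrot : Uni (compList (cs ++ [D])) := by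
      unfold Uni at hUw ⊢
      rw [hrot, inc_comp, Matrix.det_mul_comm, ← inc_comp, ← hwc]
      exact hUw
    obtain ⟨Pr⟩ := exists_PD_of_Cp hm (wts hR0) hκ0 hκ1
      (fun i j => by unfold inc; positivity) hUrot.ne hcp
    have hPr := Pool.Agent.Q132.PC.pisot_of_PD Pr hUrot
    have hPw : PisotMat (inc (compList w)) := by
      rw [hwc, inc_comp]
      refine pisot_comm _ _ ?_
      rw [← inc_comp, ← hrot]
      exact hPr
    refine ⟨hPw, ?_⟩
    -- the costs
    obtain ⟨ds, hds⟩ : ∃ ds, ds = compList (w.take r) :: chunk K q (w.drop r) := ⟨_, rfl⟩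
    have hdropw : (w.drop r).length = q * K := by rw [List.length_drop, ← hnd, hnqr]; omega
    have hdsw : compList ds = compList w := by
      rw [hds]
      simp only [compList]
      rw [chunk_comp K _ _ hdropw, ← compList_append, List.take_append_drop]
    have hdsL : ∀ c ∈ ds, CL D Λ c := by
      intro c hc
      rw [hds] at hc
      rcases List.mem_cons.1 hc with rfl | hc
      · exact hchunk _ (by rw [List.length_take]; omega)
          fun S hS => hw S (List.mem_of_mem_take hS)
      · obtain ⟨y, h1, h2, rfl⟩ := chunk_mem _ _ _ _ hc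
        exact hchunk y h1 fun S hS => hw S (List.mem_of_mem_drop (h2 S hS))
    have hdsnb : nb D ds ≤ 1 + t := by
      rw [hds]
      simp only [nb]
      have h1 := chunk_nb (σ := σ) K q (w.drop r) hdropw
      rw [← hD] at h1
      have h2 : nb σ w = nb σ (w.take r) + nb σ (w.drop r) := by
        rw [← nb_append, List.take_append_drop]
      split_ifs <;> omega
    have hdslen : ds.length = q + 1 := by
      rw [hds]
      simp [chunk_length]
    have hdsng : q - t ≤ ng D ds := by
      have := nb_add_ng D ds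
      omega
    obtain ⟨γ, hγ⟩ := chunks_F hΛ1 hDF ds hdsL
    rw [hdsw] at hγ
    refine hγ.semi ?_ hPw
    have h1 := mul_lt_mul_of_pos_right (hsmall _ _ hdsnb hdsng) hγ.pos
    rw [one_mul] at h1
    exact h1

end Pool.Agent.Q132.AB
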