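import Pool.Agent.Q132.AB.Sub
import Pool.Agent.Q132.AB.Conv

/-!
Exponential decay of the costs relative to the lengths.
-/

set_option autoImplicit false

namespace Pool.Agent.Q132.AB
open Pool.Agent.H812R2.PI Pool.Agent.Q132.PT
open scoped BigOperators
variable {d : ℕ}

/-- submultiplicativity, real form -/
theorem cst_comp_iter_real {σ : Fin d → List (Fin d)} (P : PD (inc σ)) :
    ∃ B : ℝ, 0 ≤ B ∧ ∀ k ≥ 1, ∀ (S : Fin d → List (Fin d)) (K : ℝ), 0 ≤ K →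
      (∀ x y, (cst S x y : ℝ) ≤ K) → ∀ C : ℝ, (∀ x y, (cst (iter σ k) x y : ℝ) ≤ C) → ∀ x y,
      (cst (comp S (iter σ k)) x y : ℝ) ≤ K * (B * C) := by
  obtain ⟨B, hB⟩ := cst_comp_iter P
  refine ⟨B, Nat.cast_nonneg _, fun k hk S K hK0 hK C hC x y => ?_⟩
  have h1 := hB k hk S ⌊K⌋₊ (fun x y => Nat.le_floor (hK x y)) x y
  have h2 : (cst (comp S (iter σ k)) x y : ℝ) ≤
      ((⌊K⌋₊ : ℕ) : ℝ) * ((B : ℝ) * (cst (iter σ k) y x : ℝ)) := by exact_mod_cast h1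
  refine h2.trans ?_
  have h3 : ((⌊K⌋₊ : ℕ) : ℝ) ≤ K := Nat.floor_le hK0
  have h4 : (B : ℝ) * (cst (iter σ k) y x : ℝ) ≤ B * C :=
    mul_le_mul_of_nonneg_left (hC y x) (Nat.cast_nonneg _)
  exact mul_le_mul h3 h4 (by positivity) hK0

theorem iter_add' (σ : Fin d → List (Fin d)) (a b : ℕ) :
    iter σ (a + b) = comp (iter σ a) (iter σ b) := by
  funext x
  exact iter_add σ a b x

/-- **Exponential decay.** -/
theorem cst_exp {σ : Fin d → List (Fin d)} (P : PD (inc σ)) (hS : SemiConjToral σ) :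
    ∃ C θ : ℝ, 0 ≤ C ∧ 0 < θ ∧ θ < P.lam ∧ ∀ n x y, (cst (iter σ n) x y : ℝ) ≤ C * θ ^ n := by
  have hlam : 1 < P.lam := P.lam_gt
  have hlam0 : 0 < P.lam := by linarith
  obtain ⟨B, hB0, hB⟩ := cst_comp_iter_real P
  obtain ⟨n₀, hn₀⟩ := cst_small P hS (ε := 1 / (4 * (B + 1))) (by positivity)
  obtain ⟨N, hN1, hN⟩ : ∃ N : ℕ, 1 ≤ N ∧ ∀ x y,
      (cst (iter σ N) x y : ℝ) ≤ 1 / (4 * (B + 1)) * P.lam ^ N :=
    ⟨max n₀ 1, le_max_right _ _, hn₀ _ (le_max_left _ _)⟩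
  obtain ⟨L, hL⟩ : ∃ L : ℝ, L = P.lam ^ N / 4 := ⟨_, rfl⟩
  have hL0 : 0 < L := by rw [hL]; positivity
  obtain ⟨C₀, hC₀⟩ : ∃ C₀ : ℝ, ∀ r < N, ∀ x y, (cst (iter σ r) x y : ℝ) ≤ C₀ := by
    obtain ⟨C₀, hC₀⟩ := (Set.finite_range fun p : Fin N × Fin d × Fin d =>
      (cst (iter σ p.1) p.2.1 p.2.2 : ℝ)).bddAbove
    exact ⟨C₀, fun r hr x y => hC₀ ⟨(⟨r, hr⟩, x, y), rfl⟩⟩
  have hC₁ : ∀ r < N, ∀ x y, (cst (iter σ r) x y : ℝ) ≤ |C₀| := fun r hr x y =>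
    (hC₀ r hr x y).trans (le_abs_self _)
  have hstep : ∀ r < N, ∀ q : ℕ, ∀ x y, (cst (iter σ (r + N * q)) x y : ℝ) ≤ |C₀| * L ^ q := by
    intro r hr q
    induction q with
    | zero => intro x y; rw [Nat.mul_zero, Nat.add_zero, pow_zero, mul_one]; exact hC₁ r hr x y
    | succ q ih =>
      intro x y
      rw [Nat.mul_succ, ← Nat.add_assoc, iter_add']
      refine (hB N hN1 _ (|C₀| * L ^ q) (by positivity) ih _ hN x y).trans ?_
      have h1 : B * (1 / (4 * (B + 1)) * P.lam ^ N) ≤ L := by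
        have h2 : B * (1 / (4 * (B + 1)) * P.lam ^ N) = (B / (B + 1)) * L := by
          rw [hL]
          field_simp
        rw [h2]
        have h3 : B / (B + 1) ≤ 1 := by
          rw [div_le_one (by linarith)]
          linarith
        calc (B / (B + 1)) * L ≤ 1 * L := mul_le_mul_of_nonneg_right h3 hL0.le
          _ = L := one_mul _
      calc |C₀| * L ^ q * (B * (1 / (4 * (B + 1)) * P.lam ^ N)) ≤ |C₀| * L ^ q * L :=
            mul_le_mul_of_nonneg_left h1 (by positivity)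
        _ = |C₀| * L ^ (q + 1) := by ring
  have hNR : (1:ℝ) ≤ N := by exact_mod_cast hN1
  obtain ⟨t, ht⟩ : ∃ t : ℝ, t = 1 + -(3 / (4 * N)) := ⟨_, rfl⟩
  have h34 : 3 / (4 * (N:ℝ)) ≤ 3 / 4 := by
    rw [div_le_div_iff₀ (by positivity) (by norm_num)]
    nlinarith
  have h34' : 0 < 3 / (4 * (N:ℝ)) := by positivity
  have ht0 : 0 < t := by rw [ht]; linarith
  have ht1 : t < 1 := by rw [ht]; linarith
  have htN : 1 / 4 ≤ t ^ N := by
    have h1 := one_add_mul_le_pow (a := -(3 / (4 * (N:ℝ)))) (by linarith) N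
    rw [← ht] at h1
    refine le_trans (le_of_eq ?_) h1
    field_simp
    norm_num
  obtain ⟨θ, hθ⟩ : ∃ θ : ℝ, θ = t * P.lam := ⟨_, rfl⟩
  have hθ0 : 0 < θ := by rw [hθ]; positivity
  have hLθ : L ≤ θ ^ N := by
    rw [hL, hθ, mul_pow]
    have := mul_le_mul_of_nonneg_right htN (pow_pos hlam0 N).le
    linarith
  obtain ⟨m₀, hm₀⟩ : ∃ m₀ : ℝ, m₀ = (min 1 θ) ^ N := ⟨_, rfl⟩
  have hmin0 : 0 < min 1 θ := lt_min one_pos hθ0
  have hmpos : 0 < m₀ := by rw [hm₀]; exact pow_pos hmin0 N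
  have hmr : ∀ r < N, m₀ ≤ θ ^ r := by
    intro r hr
    rw [hm₀]
    calc (min 1 θ) ^ N ≤ (min 1 θ) ^ r := pow_le_pow_of_le_one hmin0.le (min_le_left _ _) hr.le
      _ ≤ θ ^ r := pow_le_pow_left₀ hmin0.le (min_le_right _ _) r
  refine ⟨|C₀| / m₀, θ, by positivity, hθ0, ?_, fun n x y => ?_⟩
  · rw [hθ]
    calc t * P.lam < 1 * P.lam := mul_lt_mul_of_pos_right ht1 hlam0
      _ = P.lam := one_mul _
  · have hr : n % N < N := Nat.mod_lt _ hN1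
    have h1 := hstep (n % N) hr (n / N) x y
    rw [Nat.mod_add_div] at h1
    refine h1.trans ?_
    rw [div_mul_eq_mul_div, le_div_iff₀ hmpos]
    have h2 : L ^ (n / N) ≤ θ ^ (N * (n / N)) := by
      rw [pow_mul]
      exact pow_le_pow_left₀ hL0.le hLθ _
    have h3 : θ ^ (n % N) * θ ^ (N * (n / N)) = θ ^ n := by
      rw [← pow_add, Nat.mod_add_div]
    have h4 := hmr _ hr
    calc |C₀| * L ^ (n / N) * m₀ = |C₀| * (m₀ * L ^ (n / N)) := by ring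
      _ ≤ |C₀| * (θ ^ (n % N) * θ ^ (N * (n / N))) := by
          refine mul_le_mul_of_nonneg_left ?_ (abs_nonneg _)
          exact mul_le_mul h4 h2 (by positivity) (by positivity)
      _ = |C₀| * θ ^ n := by rw [h3]

end Pool.Agent.Q132.AB
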