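import Pool.Agent.Q132.AB.Main
import Pool.Agent.Q132.PT.All

/-!
Finite sets of good substitutions, two-sided blocks, rotation of compositions.
-/

set_option autoImplicit false

namespace Pool.Agent.Q132.AB
open Pool.Agent.H812R2.PI Pool.Agent.Q132.PT
open scoped BigOperators
variable {m : ℕ}

/-- the two block properties -/
def Blks (R β : ℝ) (σ : Fin (m+1) → List (Fin (m+1))) (k : ℕ) : Prop :=
  (∀ T : Fin (m+1) → List (Fin (m+1)), (inc T).det ≠ 0 →
    (∀ a, ((T a).length : ℝ) ≤ (β ^ k) ^ 2) → ∃ g, GBlk R (comp T (iter σ k)) g) ∧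
  (∀ T T' : Fin (m+1) → List (Fin (m+1)), (inc T).det ≠ 0 → (inc T').det ≠ 0 →
    (∀ a, ((T a).length : ℝ) ≤ β ^ k) → (∀ a, ((T' a).length : ℝ) ≤ β ^ k) →
    ∃ g, CBlk (comp (comp T (iter σ k)) T') g)

theorem Blks.mono {R β β' : ℝ} {σ : Fin (m+1) → List (Fin (m+1))} {k : ℕ} (h : Blks R β σ k)
    (h0 : 0 ≤ β') (hβ : β' ≤ β) : Blks R β' σ k := by
  have h1 : β' ^ k ≤ β ^ k := pow_le_pow_left₀ h0 hβ k
  have h2 : (β' ^ k) ^ 2 ≤ (β ^ k) ^ 2 := pow_le_pow_left₀ (pow_nonneg h0 k) h1 2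
  exact ⟨fun T hd hL => h.1 T hd fun a => (hL a).trans h2,
    fun T T' hd hd' hL hL' => h.2 T T' hd hd' (fun a => (hL a).trans h1)
      fun a => (hL' a).trans h1⟩

theorem Good.pd {σ : Fin (m+1) → List (Fin (m+1))} (h : Good σ) : Nonempty (PD (inc σ)) :=
  Pool.Agent.Q132.PC.exists_PD' (inc σ) (fun i j => by unfold inc; positivity) h.1

/-- constants for a finite set -/
theorem fin_block (G : Finset (Fin (m+1) → List (Fin (m+1)))) (hG : ∀ σ ∈ G, Good σ) :
    ∃ (R β : ℝ) (K : ℕ), 0 < R ∧ 1 < β ∧ ∀ σ ∈ G, ∀ k ≥ K, Blks R β σ k := by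
  classical
  have h1 : ∀ G : Finset (Fin (m+1) → List (Fin (m+1))), (∀ σ ∈ G, Good σ) →
      ∃ R₀ β : ℝ, 0 < R₀ ∧ 1 < β ∧ ∀ σ ∈ G, ∀ R ≥ R₀, ∃ K : ℕ, ∀ k ≥ K, Blks R β σ k := by
    intro G
    induction G using Finset.induction_on with
    | empty => intro _; exact ⟨1, 2, one_pos, by norm_num, fun σ hσ => absurd hσ (by simp)⟩
    | insert s G hs ih =>
      intro hG
      obtain ⟨R₁, β₁, hR₁, hβ₁, h1⟩ := ih fun σ hσ => hG σ (Finset.mem_insert_of_mem hσ)
      have hg := hG s (Finset.mem_insert_self _ _)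
      obtain ⟨P⟩ := hg.pd
      obtain ⟨R₂, β₂, hR₂, hβ₂, h2⟩ := block P hg.2
      refine ⟨max R₁ R₂, min β₁ β₂, lt_max_of_lt_left hR₁, lt_min hβ₁ hβ₂, fun σ hσ R hR => ?_⟩
      have hmin : (0:ℝ) ≤ min β₁ β₂ := le_min (by linarith) (by linarith)
      rcases Finset.mem_insert.1 hσ with rfl | hσ
      · obtain ⟨K, hK⟩ := h2 R ((le_max_right _ _).trans hR)
        exact ⟨K, fun k hk => Blks.mono (hK k hk) hmin (min_le_right _ _)⟩
      · obtain ⟨K, hK⟩ := h1 σ hσ R ((le_max_left _ _).trans hR)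
        exact ⟨K, fun k hk => Blks.mono (hK k hk) hmin (min_le_left _ _)⟩
  obtain ⟨R, β, hR, hβ, h⟩ := h1 G hG
  have h2 : ∀ᶠ k : ℕ in Filter.atTop, ∀ σ ∈ G, Blks R β σ k := by
    rw [Filter.eventually_all_finset]
    intro σ hσ
    obtain ⟨K, hK⟩ := h σ hσ R le_rfl
    exact Filter.eventually_atTop.2 ⟨K, hK⟩
  obtain ⟨K, hK⟩ := Filter.eventually_atTop.1 h2
  exact ⟨R, β, K, hR, hβ, fun σ hσ k hk => hK k hk σ hσ⟩

theorem comp_id_right (S : Fin (m+1) → List (Fin (m+1))) : comp S (fun a => [a]) = S := by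
  funext a
  simp [comp, ext]

theorem comp_id_left (S : Fin (m+1) → List (Fin (m+1))) : comp (fun a => [a]) S = S := by
  funext a
  simp [comp, ext]

/-- the block of a quadruple -/
def blkQ (q : (Fin (m+1) → List (Fin (m+1))) × (Fin (m+1) → List (Fin (m+1))) × ℕ ×
    (Fin (m+1) → List (Fin (m+1)))) : Fin (m+1) → List (Fin (m+1)) :=
  comp (comp q.1 (iter q.2.1 q.2.2.1)) q.2.2.2

/-- the shifted blocks -/
def shl (U : Fin (m+1) → List (Fin (m+1))) : List ((Fin (m+1) → List (Fin (m+1))) ×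
    (Fin (m+1) → List (Fin (m+1))) × ℕ × (Fin (m+1) → List (Fin (m+1)))) →
    List (Fin (m+1) → List (Fin (m+1)))
  | [] => []
  | q :: l => comp (comp U q.1) (iter q.2.1 q.2.2.1) :: shl q.2.2.2 l

/-- the last factor -/
def lst (U : Fin (m+1) → List (Fin (m+1))) : List ((Fin (m+1) → List (Fin (m+1))) ×
    (Fin (m+1) → List (Fin (m+1))) × ℕ × (Fin (m+1) → List (Fin (m+1)))) →
    (Fin (m+1) → List (Fin (m+1)))
  | [] => U
  | q :: l => lst q.2.2.2 l

theorem shl_eq (U : Fin (m+1) → List (Fin (m+1))) (l : List ((Fin (m+1) → List (Fin (m+1))) ×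
    (Fin (m+1) → List (Fin (m+1))) × ℕ × (Fin (m+1) → List (Fin (m+1))))) :
    comp U (compList (l.map blkQ)) = comp (compList (shl U l)) (lst U l) := by
  induction l generalizing U with
  | nil =>
    simp only [List.map_nil, compList, shl, lst]
    rw [comp_id_right, comp_id_left]
  | cons q l ih =>
    simp only [List.map_cons, compList, shl, lst]
    rw [comp_assoc, ← ih q.2.2.2]
    unfold blkQ
    simp only [comp_assoc]

theorem mem_shl (U : Fin (m+1) → List (Fin (m+1))) (l : List ((Fin (m+1) → List (Fin (m+1))) ×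
    (Fin (m+1) → List (Fin (m+1))) × ℕ × (Fin (m+1) → List (Fin (m+1)))))
    (S : Fin (m+1) → List (Fin (m+1))) (h : S ∈ shl U l) :
    ∃ V, ∃ q ∈ l, (V = U ∨ ∃ q' ∈ l, V = q'.2.2.2) ∧
      S = comp (comp V q.1) (iter q.2.1 q.2.2.1) := by
  induction l generalizing U with
  | nil => simp [shl] at h
  | cons q l ih =>
    simp only [shl] at h
    rcases List.mem_cons.1 h with rfl | h
    · exact ⟨U, q, List.mem_cons_self .., Or.inl rfl, rfl⟩
    · obtain ⟨V, q₁, hq₁, hV, hS⟩ := ih _ h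
      refine ⟨V, q₁, List.mem_cons_of_mem _ hq₁, Or.inr ?_, hS⟩
      rcases hV with rfl | ⟨q', hq', rfl⟩
      · exact ⟨q, List.mem_cons_self .., rfl⟩
      · exact ⟨q', List.mem_cons_of_mem _ hq', rfl⟩

theorem lst_mem (U : Fin (m+1) → List (Fin (m+1))) (l : List ((Fin (m+1) → List (Fin (m+1))) ×
    (Fin (m+1) → List (Fin (m+1))) × ℕ × (Fin (m+1) → List (Fin (m+1))))) :
    lst U l = U ∨ ∃ q ∈ l, lst U l = q.2.2.2 := by
  induction l generalizing U with
  | nil => exact Or.inl rfl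
  | cons q l ih =>
    right
    simp only [lst]
    rcases ih q.2.2.2 with h | ⟨q', hq', h⟩
    · exact ⟨q, List.mem_cons_self .., h⟩
    · exact ⟨q', List.mem_cons_of_mem _ hq', h⟩

/-- rotation -/
theorem pisot_comm {d : ℕ} (A B : Matrix (Fin d) (Fin d) ℤ) (h : PisotMat (A * B)) :
    PisotMat (B * A) := by
  obtain ⟨h1, h2, h3⟩ := h
  have hmapQ : ∀ A B : Matrix (Fin d) (Fin d) ℤ, (A * B).map (Int.cast : ℤ → ℚ) =
      A.map (Int.cast : ℤ → ℚ) * B.map (Int.cast : ℤ → ℚ) := by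
    intro A B
    ext i j
    simp [Matrix.mul_apply]
  have hmapC : ∀ A B : Matrix (Fin d) (Fin d) ℤ, (A * B).map (Int.cast : ℤ → ℂ) =
      A.map (Int.cast : ℤ → ℂ) * B.map (Int.cast : ℤ → ℂ) := by
    intro A B
    ext i j
    simp [Matrix.mul_apply]
  unfold PisotMat
  rw [hmapQ, hmapC, Matrix.charpoly_mul_comm, Matrix.charpoly_mul_comm (B.map (Int.cast : ℤ → ℂ)),
    ← hmapQ, ← hmapC, Matrix.det_mul_comm]
  exact ⟨h1, h2, h3⟩

theorem len_comp (S T : Fin (m+1) → List (Fin (m+1))) {L L' : ℝ}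
    (hL : ∀ a, ((S a).length : ℝ) ≤ L) (hL' : ∀ a, ((T a).length : ℝ) ≤ L') (a : Fin (m+1)) :
    ((comp S T a).length : ℝ) ≤ L * L' := by
  have hL0 : 0 ≤ L := le_trans (Nat.cast_nonneg _) (hL 0)
  have h1 : ∀ w : List (Fin (m+1)), ((ext S w).length : ℝ) ≤ L * w.length := by
    intro w
    induction w with
    | nil => simp [ext]
    | cons a w ih =>
      rw [ext_cons, List.length_append, List.length_cons]
      push_cast
      have := hL a
      linarith
  exact (h1 (T a)).trans (mul_le_mul_of_nonneg_left (hL' a) hL0)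

/-- **Two-sided blocks.** -/
theorem two_sided (hm : 1 ≤ m) {R β : ℝ} (hR : 0 < R) (hβ : 1 < β)
    {G : Finset (Fin (m+1) → List (Fin (m+1)))} (hG : ∀ σ ∈ G, Good σ) {K : ℕ}
    (hK : ∀ σ ∈ G, ∀ k ≥ K, Blks R β σ k) (k₀ : ℕ) (hk₀ : K ≤ k₀)
    (l : List ((Fin (m+1) → List (Fin (m+1))) × (Fin (m+1) → List (Fin (m+1))) × ℕ ×
      (Fin (m+1) → List (Fin (m+1))))) (hne : l ≠ [])
    (hl : ∀ q ∈ l, q.2.1 ∈ G ∧ k₀ ≤ q.2.2.1 ∧ Uni q.1 ∧ Uni q.2.2.2 ∧
      (∀ a, ((q.1 a).length : ℝ) ≤ β ^ k₀) ∧ (∀ a, ((q.2.2.2 a).length : ℝ) ≤ β ^ k₀)) :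
    Good (compList (l.map blkQ)) := by
  have hβ0 : 0 < β := by linarith
  have hmono : ∀ k, k₀ ≤ k → β ^ k₀ ≤ β ^ k := fun k hk => pow_le_pow_right₀ hβ.le hk
  have hblk : ∀ V : Fin (m+1) → List (Fin (m+1)), Uni V → (∀ a, ((V a).length : ℝ) ≤ β ^ k₀) →
      ∀ q ∈ l, ∃ g, GBlk R (comp (comp V q.1) (iter q.2.1 q.2.2.1)) g := by
    intro V hV hVL q hq
    obtain ⟨h1, h2, h3, -, h5, -⟩ := hl q hq
    refine (hK q.2.1 h1 q.2.2.1 (hk₀.trans h2)).1 (comp V q.1) (hV.comp h3).ne fun a => ?_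
    refine (len_comp V q.1 hVL h5 a).trans ?_
    rw [pow_two]
    exact mul_le_mul (hmono _ h2) (hmono _ h2) (by positivity) (by positivity)
  have hUq : ∀ q ∈ l, Uni (blkQ q) := by
    intro q hq
    obtain ⟨h1, h2, h3, h4, -⟩ := hl q hq
    exact (h3.comp (Uni.iter (hG _ h1).1.2.1 _)).comp h4
  have hU : Uni (compList (l.map blkQ)) := by
    refine Uni.list _ fun S hS => ?_
    obtain ⟨q, hq, rfl⟩ := List.mem_map.1 hS
    exact hUq q hq
  have hC : ∀ S ∈ l.map blkQ, ∃ g, CBlk S g := by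
    intro S hS
    obtain ⟨q, hq, rfl⟩ := List.mem_map.1 hS
    obtain ⟨h1, h2, h3, h4, h5, h6⟩ := hl q hq
    exact (hK q.2.1 h1 q.2.2.1 (hk₀.trans h2)).2 q.1 q.2.2.2 h3.ne h4.ne
      (fun a => (h5 a).trans (hmono _ h2)) fun a => (h6 a).trans (hmono _ h2)
  -- the rotated composition
  cases l with
  | nil => exact absurd rfl hne
  | cons q l =>
    obtain ⟨L, hL⟩ : ∃ L, L = lst q.2.2.2 l := ⟨_, rfl⟩
    have hq := hl q (List.mem_cons_self ..)
    have hLm : ∃ q' ∈ q :: l, L = q'.2.2.2 := by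
      rw [hL]
      rcases lst_mem q.2.2.2 l with h | ⟨q', hq', h⟩
      · exact ⟨q, List.mem_cons_self .., h⟩
      · exact ⟨q', List.mem_cons_of_mem _ hq', h⟩
    obtain ⟨A, hA⟩ : ∃ A, A = comp (comp q.1 (iter q.2.1 q.2.2.1)) (compList (shl q.2.2.2 l)) :=
      ⟨_, rfl⟩
    have hP : compList ((q :: l).map blkQ) = comp A L := by
      have h1 := shl_eq q.2.2.2 l
      rw [List.map_cons]
      simp only [compList]
      rw [hA, hL, comp_assoc, ← h1]
      unfold blkQ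
      simp only [comp_assoc]
    have hP' : comp L A = compList (comp (comp L q.1) (iter q.2.1 q.2.2.1) :: shl q.2.2.2 l) := by
      simp only [compList]
      rw [hA]
      simp only [comp_assoc]
    obtain ⟨qL, hqL, hLq⟩ := hLm
    have hLU : Uni L := by rw [hLq]; exact (hl qL hqL).2.2.2.1
    have hLL : ∀ a, ((L a).length : ℝ) ≤ β ^ k₀ := by rw [hLq]; exact (hl qL hqL).2.2.2.2.2
    have hUrot : Uni (comp L A) := by
      have h1 : Uni (comp A L) := by rw [← hP]; exact hU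
      unfold Uni at h1 ⊢
      rw [inc_comp, Matrix.det_mul_comm, ← inc_comp]
      exact h1
    have hgood : Good (comp L A) := by
      rw [hP']
      refine main_list hm hR _ (by simp) (fun S hS => ?_) (by rw [← hP']; exact hUrot)
      rcases List.mem_cons.1 hS with rfl | hS
      · exact hblk L hLU hLL q (List.mem_cons_self ..)
      · obtain ⟨V, q₁, hq₁, hV, rfl⟩ := mem_shl _ _ _ hS
        have hVm : ∃ q' ∈ q :: l, V = q'.2.2.2 := by
          rcases hV with h | ⟨q', hq', h⟩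
          · exact ⟨q, List.mem_cons_self .., h⟩
          · exact ⟨q', List.mem_cons_of_mem _ hq', h⟩
        obtain ⟨qV, hqV, hVq⟩ := hVm
        refine hblk V ?_ ?_ q₁ (List.mem_cons_of_mem _ hq₁)
        · rw [hVq]; exact (hl qV hqV).2.2.2.1
        · rw [hVq]; exact (hl qV hqV).2.2.2.2.2
    have hPis : PisotMat (inc (compList ((q :: l).map blkQ))) := by
      rw [hP, inc_comp]
      refine pisot_comm _ _ ?_
      rw [← inc_comp]
      exact hgood.1
    obtain ⟨P⟩ := Pool.Agent.Q132.PC.exists_PD' (inc (compList ((q :: l).map blkQ)))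
      (fun i j => by unfold inc; positivity) hPis
    exact ⟨hPis, semi_list _ (by simp) hC hU P⟩

end Pool.Agent.Q132.AB
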