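import Pool.Agent.Q132.AB.Blk2
import Pool.Agent.Q132.PT.MkPD
import Pool.Agent.Q132.PT.Crit
import Pool.Agent.Q132.PC.ComNorm

/-!
Compositions of blocks.
-/

set_option autoImplicit false

namespace Pool.Agent.Q132.AB
open Pool.Agent.H812R2.PI Pool.Agent.Q132.PT
open scoped BigOperators
variable {m : ℕ}

/-- a substitution of the Pisot substitution conjecture which satisfies the conjecture -/
def Good (σ : Fin (m+1) → List (Fin (m+1))) : Prop := PisotMat (inc σ) ∧ SemiConjToral σ

/-- determinant `± 1` -/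
def Uni (T : Fin (m+1) → List (Fin (m+1))) : Prop := (inc T).det = 1 ∨ (inc T).det = -1

theorem Uni.ne {T : Fin (m+1) → List (Fin (m+1))} (h : Uni T) : (inc T).det ≠ 0 := by
  rcases h with h | h <;> rw [h] <;> norm_num

theorem Uni.unit {T : Fin (m+1) → List (Fin (m+1))} (h : Uni T) : IsUnit (inc T).det := by
  rcases h with h | h <;> rw [h]
  · exact isUnit_one
  · exact isUnit_one.neg

theorem Uni.comp {S T : Fin (m+1) → List (Fin (m+1))} (hS : Uni S) (hT : Uni T) :
    Uni (comp S T) := by
  unfold Uni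
  rw [inc_comp, Matrix.det_mul]
  rcases hS with h | h <;> rcases hT with h' | h' <;> rw [h, h'] <;> norm_num

theorem Uni.iter {S : Fin (m+1) → List (Fin (m+1))} (hS : Uni S) (k : ℕ) : Uni (iter S k) := by
  unfold Uni
  rw [inc_iter, Matrix.det_pow]
  rcases hS with h | h <;> rw [h]
  · left; rw [one_pow]
  · rcases Nat.even_or_odd k with hk | hk
    · left; exact hk.neg_one_pow
    · right; exact hk.neg_one_pow

theorem Uni.list (l : List (Fin (m+1) → List (Fin (m+1)))) (h : ∀ S ∈ l, Uni S) :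
    Uni (compList l) := by
  induction l with
  | nil =>
    left
    simp only [compList]
    rw [JComp_inc_id, Matrix.det_one]
  | cons S l ih =>
    exact (h S (List.mem_cons_self ..)).comp (ih fun T hT => h T (List.mem_cons_of_mem _ hT))

theorem len_list (γ : (Fin (m+1) → List (Fin (m+1))) → ℝ)
    (l : List (Fin (m+1) → List (Fin (m+1)))) (hl : ∀ S ∈ l, CBlk S (γ S)) :
    0 < (l.map γ).prod ∧ ∀ j, (l.map γ).prod ≤ ((compList l j).length : ℝ) := by
  induction l with
  | nil => simp [compList]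
  | cons S l ih =>
    obtain ⟨h1, h2⟩ := ih fun T hT => hl T (List.mem_cons_of_mem _ hT)
    have h3 := hl S (List.mem_cons_self ..)
    rw [List.map_cons, List.prod_cons]
    refine ⟨mul_pos h3.pos h1, fun j => ?_⟩
    have h4 := ext_len_ge S h3.len (compList l j)
    have h5 := mul_le_mul_of_nonneg_left (h2 j) h3.pos.le
    exact h5.trans h4

theorem cost_list (γ : (Fin (m+1) → List (Fin (m+1))) → ℝ) :
    ∃ C : ℝ, 0 ≤ C ∧ ∀ l : List (Fin (m+1) → List (Fin (m+1))), (∀ S ∈ l, CBlk S (γ S)) →
      ∀ x y, (cst (compList l) x y : ℝ) ≤ C * (l.map fun S => γ S / 2).prod := by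
  obtain ⟨C, hC⟩ := (Set.finite_range fun p : Fin (m+1) × Fin (m+1) =>
      (cst (compList ([] : List (Fin (m+1) → List (Fin (m+1))))) p.1 p.2 : ℝ)).bddAbove
  refine ⟨|C|, abs_nonneg _, fun l => ?_⟩
  induction l using List.reverseRecOn with
  | nil =>
    intro _ x y
    rw [List.map_nil, List.prod_nil, mul_one]
    exact (hC ⟨(x, y), rfl⟩).trans (le_abs_self _)
  | append_singleton l S ih =>
    intro hl x y
    have hl' : ∀ T ∈ l, CBlk T (γ T) := fun T hT => hl T (List.mem_append_left _ hT)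
    have hS := hl S (List.mem_append_right _ (List.mem_singleton_self _))
    rw [compList_snoc, List.map_append, List.prod_append, List.map_singleton, List.prod_singleton]
    have h1 : 0 ≤ (l.map fun S => γ S / 2).prod := by
      refine List.prod_nonneg fun x hx => ?_
      obtain ⟨T, hT, rfl⟩ := List.mem_map.1 hx
      have := (hl' T hT).pos
      linarith
    refine (hS.cost _ (|C| * (l.map fun S => γ S / 2).prod) (by positivity) (ih hl') x y).trans
      (le_of_eq ?_)
    ring

theorem half_prod (γ : (Fin (m+1) → List (Fin (m+1))) → ℝ)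
    (l : List (Fin (m+1) → List (Fin (m+1)))) (hne : l ≠ []) (hl : ∀ S ∈ l, CBlk S (γ S)) :
    0 ≤ (l.map fun S => γ S / 2).prod ∧ (l.map fun S => γ S / 2).prod ≤ (l.map γ).prod / 2 := by
  cases l with
  | nil => exact absurd rfl hne
  | cons S l =>
    clear hne
    have key : ∀ l' : List (Fin (m+1) → List (Fin (m+1))), (∀ T ∈ l', CBlk T (γ T)) →
        0 ≤ (l'.map fun S => γ S / 2).prod ∧ (l'.map fun S => γ S / 2).prod ≤ (l'.map γ).prod := by
      intro l' h'
      induction l' with
      | nil => simp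
      | cons T l' ih =>
        obtain ⟨h1, h2⟩ := ih fun U hU => h' U (List.mem_cons_of_mem _ hU)
        have h3 := (h' T (List.mem_cons_self ..)).pos
        rw [List.map_cons, List.prod_cons, List.map_cons, List.prod_cons]
        refine ⟨mul_nonneg (by linarith) h1, ?_⟩
        exact mul_le_mul (by linarith) h2 h1 h3.le
    obtain ⟨h1, h2⟩ := key l fun T hT => hl T (List.mem_cons_of_mem _ hT)
    have h3 := (hl S (List.mem_cons_self ..)).pos
    rw [List.map_cons, List.prod_cons, List.map_cons, List.prod_cons]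
    refine ⟨mul_nonneg (by linarith) h1, ?_⟩
    have := mul_le_mul_of_nonneg_left h2 (by linarith : 0 ≤ γ S / 2)
    linarith

/-- the conjecture for compositions of blocks with small costs -/
theorem semi_list (l : List (Fin (m+1) → List (Fin (m+1)))) (hne : l ≠ [])
    (hl : ∀ S ∈ l, ∃ g, CBlk S g) (hU : Uni (compList l)) (P : PD (inc (compList l))) :
    SemiConjToral (compList l) := by
  classical
  obtain ⟨γ, hγ⟩ : ∃ γ : (Fin (m+1) → List (Fin (m+1))) → ℝ, ∀ S ∈ l, CBlk S (γ S) := by
    refine ⟨fun S => if h : ∃ g, CBlk S g then h.choose else 1, fun S hS => ?_⟩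
    have h := hl S hS
    simp only [dif_pos h]
    exact h.choose_spec
  obtain ⟨C, hC0, hC⟩ := cost_list γ
  obtain ⟨h1, h2⟩ := half_prod γ l hne hγ
  obtain ⟨h3, h4⟩ := len_list γ l hγ
  have hlam : (l.map γ).prod ≤ P.lam := by
    have h5 : P.lam = ∑ j, ((compList l j).length : ℝ) * P.u j := by
      calc P.lam = ∑ i, P.lam * P.u i := by rw [← Finset.mul_sum, P.u_sum, mul_one]
        _ = ∑ i, ∑ j, (inc (compList l) i j : ℝ) * P.u j :=
            Finset.sum_congr rfl fun i _ => (P.M_u i).symm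
        _ = ∑ j, (∑ i, (inc (compList l) i j : ℝ)) * P.u j := by
            rw [Finset.sum_comm]
            exact Finset.sum_congr rfl fun j _ => by rw [Finset.sum_mul]
        _ = _ := Finset.sum_congr rfl fun j _ => by rw [col_len]
    rw [h5]
    calc (l.map γ).prod = ∑ j, (l.map γ).prod * P.u j := by
          rw [← Finset.mul_sum, P.u_sum, mul_one]
      _ ≤ _ := Finset.sum_le_sum fun j _ => mul_le_mul_of_nonneg_right (h4 j) (P.u_pos j).le
  have hcost : ∀ n x y, (cst (iter (compList l) n) x y : ℝ) ≤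
      C * ((l.map fun S => γ S / 2).prod) ^ n := by
    intro n x y
    rw [← Pool.Agent.Y316.Pisot.compList_flatten]
    refine (hC _ (fun τ hτ => hγ τ (mem_flatten_replicate hτ)) x y).trans ?_
    rw [flatten_prod]
  refine semi_of_small P hU.unit fun ε hε => ?_
  obtain ⟨n₀, hn₀⟩ := small_of_geom (C := C) P.lam_gt h1 (by linarith)
    (fun n => C * ((l.map fun S => γ S / 2).prod) ^ n) (fun n => le_rfl) ε hε
  exact ⟨n₀, fun n hn x y => (hcost n x y).trans (hn₀ n hn)⟩

theorem cp_one' {R : ℝ} : Cp (rR R) w1 1 (1 : Matrix (Fin (m+1)) (Fin (m+1)) ℤ) := by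
  have h1 : ∀ g : Fin (m+1) → ℝ, row (1 : Matrix (Fin (m+1)) (Fin (m+1)) ℤ) g = g := by
    intro g
    funext j
    unfold row
    simp [Matrix.one_apply]
  refine ⟨fun g hg => ?_, fun g _ x _ => ?_⟩
  · rw [h1]
    exact ⟨le_rfl, hg⟩
  · rw [FOff_act_one, one_mul]

theorem cp_blocks {R : ℝ} (l : List (Fin (m+1) → List (Fin (m+1))))
    (hl : ∀ S ∈ l, ∃ g, GBlk R S g) : Cp (rR R) w1 ((1 / 2) ^ l.length) (inc (compList l)) := by
  induction l with
  | nil =>
    simp only [compList]
    rw [JComp_inc_id, List.length_nil, pow_zero]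
    exact cp_one'
  | cons S l ih =>
    obtain ⟨g, hg⟩ := hl S (List.mem_cons_self ..)
    have h2 := ih fun T hT => hl T (List.mem_cons_of_mem _ hT)
    simp only [compList]
    rw [inc_comp, List.length_cons, pow_succ']
    exact Cp.mul hg.cp h2 (by norm_num)

theorem pd_blocks (hm : 1 ≤ m) {R : ℝ} (hR : 0 < R) (l : List (Fin (m+1) → List (Fin (m+1))))
    (hne : l ≠ []) (hl : ∀ S ∈ l, ∃ g, GBlk R S g) (hU : Uni (compList l)) :
    Nonempty (PD (inc (compList l))) := by
  have hlen : l.length ≠ 0 := fun h => hne (List.eq_nil_of_length_eq_zero h)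
  exact exists_PD_of_Cp hm (wts hR) (by positivity) (pow_lt_one₀ (by norm_num) (by norm_num) hlen)
    (fun i j => by unfold inc; positivity) hU.ne (cp_blocks l hl)

theorem main_list (hm : 1 ≤ m) {R : ℝ} (hR : 0 < R) (l : List (Fin (m+1) → List (Fin (m+1))))
    (hne : l ≠ []) (hl : ∀ S ∈ l, ∃ g, GBlk R S g) (hU : Uni (compList l)) :
    Good (compList l) := by
  obtain ⟨P⟩ := pd_blocks hm hR l hne hl hU
  refine ⟨Pool.Agent.Q132.PC.pisot_of_PD P hU, semi_list l hne (fun S hS => ?_) hU P⟩
  obtain ⟨g, hg⟩ := hl S hS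
  exact ⟨g, hg.toC⟩

end Pool.Agent.Q132.AB
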