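import Pool.Agent.Q132.PT.Cost

/-!
The cost of replacing a word by a word with the same letters whose path is close.
-/

set_option autoImplicit false

namespace Pool.Agent.Q132.AB
open Pool.Agent.H812R2.PI Pool.Agent.Q132.PT
open scoped BigOperators
variable {d : ℕ}

/-- the number of transpositions of neighbours which transform `w` into `w'` greedily -/
def pass (w : List (Fin d)) : List (Fin d) → ℕ
  | [] => 0
  | a :: t => w.idxOf a + pass (w.erase a) t

theorem dS_front (S : Fin d → List (Fin d)) (K : ℕ) (hK : ∀ x y, cst S x y ≤ K) (x : Fin d)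
    (v : List (Fin d)) : dS S (v ++ [x]) (x :: v) ≤ K * v.length := by
  induction v with
  | nil => rw [List.nil_append, dS_self]; exact Nat.zero_le _
  | cons y v ih =>
    rw [List.length_cons, Nat.mul_succ]
    refine (dS_tri S _ (y :: x :: v) _).trans (Nat.add_le_add ?_ ?_)
    · exact (dS_cons S y (v ++ [x]) (x :: v)).trans ih
    · exact (dS_swap_head S y x v).trans (hK y x)

theorem erase_split {a : Fin d} {v z : List (Fin d)} (hv : a ∉ v) :
    (v ++ a :: z).erase a = v ++ z := by
  rw [List.erase_append_right _ hv, List.erase_cons_head]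

theorem idx_split {a : Fin d} {v z : List (Fin d)} (hv : a ∉ v) :
    (v ++ a :: z).idxOf a = v.length := by
  rw [List.idxOf_append_of_notMem hv, List.idxOf_cons_self, Nat.add_zero]

theorem dS_pass (S : Fin d → List (Fin d)) (K : ℕ) (hK : ∀ x y, cst S x y ≤ K)
    (w w' : List (Fin d)) (h : w.Perm w') : dS S w w' ≤ K * pass w w' := by
  induction w' generalizing w with
  | nil =>
    rw [List.perm_nil.1 h, dS_self]
    exact Nat.zero_le _
  | cons a t ih =>
    have ha : a ∈ w := h.symm.subset (List.mem_cons_self ..)
    obtain ⟨v, z, rfl, hv⟩ := List.eq_append_cons_of_mem ha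
    have h1 : (v ++ z).Perm t := List.Perm.cons_inv (List.perm_middle.symm.trans h)
    unfold pass
    rw [erase_split hv, idx_split hv, Nat.mul_add]
    refine (dS_tri S _ (a :: (v ++ z)) _).trans (Nat.add_le_add ?_ ?_)
    · have h2 : v ++ a :: z = (v ++ [a]) ++ z := by simp
      rw [h2]
      exact (dS_suffix S (v ++ [a]) (a :: v) z (ab_move a v).symm).trans (dS_front S K hK a v)
    · exact (dS_cons S a (v ++ z) t).trans (ih (v ++ z) h1)

/-- erase the letters of `q` -/
def rest (w : List (Fin d)) : List (Fin d) → List (Fin d)
  | [] => w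
  | b :: q => rest (w.erase b) q

theorem rest_snoc (w q : List (Fin d)) (a : Fin d) :
    rest w (q ++ [a]) = (rest w q).erase a := by
  induction q generalizing w with
  | nil => rfl
  | cons b q ih => exact ih (w.erase b)

theorem rest_perm (w₁ z q : List (Fin d)) (h : q.Perm w₁) : rest (w₁ ++ z) q = z := by
  induction q generalizing w₁ with
  | nil =>
    rw [List.nil_perm.1 h]
    rfl
  | cons b q ih =>
    have hb : b ∈ w₁ := h.subset (List.mem_cons_self ..)
    unfold rest
    rw [List.erase_append_left _ hb]
    refine ih (w₁.erase b) ?_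
    have h1 := h.erase b
    rwa [List.erase_cons_head] at h1

theorem idx_rest (a : Fin d) (w₁ w₂ q : List (Fin d)) (h : q.count a ≤ w₁.count a) :
    (rest (w₁ ++ a :: w₂) q).idxOf a ≤ ∑ c, (w₁.count c - q.count c) := by
  induction q generalizing w₁ w₂ with
  | nil =>
    unfold rest
    have h1 : (w₁ ++ a :: w₂).idxOf a ≤ w₁.length := by
      by_cases ha : a ∈ w₁
      · rw [List.idxOf_append_of_mem ha]
        exact List.idxOf_le_length
      · rw [idx_split ha]
    refine h1.trans (le_of_eq ?_)
    simp only [List.count_nil, Nat.sub_zero]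
    have h2 := ab_sum w₁
    unfold ab at h2
    exact_mod_cast h2.symm
  | cons b q ih =>
    unfold rest
    by_cases hb : b ∈ w₁
    · rw [List.erase_append_left _ hb]
      have hcnt : ∀ c, (w₁.erase b).count c - q.count c = w₁.count c - (b :: q).count c := by
        intro c
        by_cases hc : c = b
        · subst hc
          rw [List.count_erase_self, List.count_cons_self]
          omega
        · rw [List.count_erase_of_ne hc, List.count_cons_of_ne (Ne.symm hc)]
      refine (ih (w₁.erase b) w₂ ?_).trans (le_of_eq (Finset.sum_congr rfl fun c _ => hcnt c))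
      by_cases hc : a = b
      · subst hc
        rw [List.count_erase_self]
        rw [List.count_cons_self] at h
        omega
      · rw [List.count_erase_of_ne hc]
        rwa [List.count_cons_of_ne (Ne.symm hc)] at h
    · have hab : b ≠ a := by
        rintro rfl
        rw [List.count_cons_self, List.count_eq_zero_of_not_mem hb] at h
        omega
      rw [List.erase_append_right _ hb, List.erase_cons_tail (by simpa using hab.symm)]
      have hcnt : ∀ c, w₁.count c - q.count c = w₁.count c - (b :: q).count c := by
        intro c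
        by_cases hc : c = b
        · subst hc
          rw [List.count_eq_zero_of_not_mem hb]
          simp
        · rw [List.count_cons_of_ne (Ne.symm hc)]
      refine (ih w₁ (w₂.erase b) ?_).trans (le_of_eq (Finset.sum_congr rfl fun c _ => hcnt c))
      rwa [List.count_cons_of_ne hab] at h

/-- closeness of the paths: vertices with a common coordinate -/
def Cls (B : ℕ) (w w' : List (Fin d)) : Prop :=
  ∀ w₁ q : List (Fin d), w₁ <+: w → q <+: w' → (∃ a, w₁.count a = q.count a) →
    ∑ c, (w₁.count c - q.count c) ≤ B

theorem count_ab {u v : List (Fin d)} (h : ab u = ab v) : u.Perm v := by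
  rw [List.perm_iff_count]
  intro a
  have := congrFun h a
  unfold ab at this
  exact_mod_cast this

theorem split_count (a : Fin d) (w : List (Fin d)) (n : ℕ) (h : n < w.count a) :
    ∃ w₁ w₂ : List (Fin d), w = w₁ ++ a :: w₂ ∧ w₁.count a = n := by
  induction w generalizing n with
  | nil => simp at h
  | cons b w ih =>
    by_cases hb : b = a
    · subst hb
      rcases Nat.eq_zero_or_pos n with rfl | hn
      · exact ⟨[], w, rfl, rfl⟩
      · obtain ⟨m, rfl⟩ : ∃ m, n = m + 1 := ⟨n - 1, by omega⟩
        rw [List.count_cons_self] at h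
        obtain ⟨w₁, w₂, h1, h2⟩ := ih m (by omega)
        exact ⟨b :: w₁, w₂, by rw [h1]; rfl, by rw [List.count_cons_self, h2]⟩
    · rw [List.count_cons_of_ne hb] at h
      obtain ⟨w₁, w₂, h1, h2⟩ := ih n h
      exact ⟨b :: w₁, w₂, by rw [h1]; rfl, by rw [List.count_cons_of_ne hb, h2]⟩

theorem edges_nodup' (z : Fin d → ℤ) (w : List (Fin d)) : (edges z w).Nodup := by
  rw [List.nodup_iff_injective_get]
  intro i j hij
  have hi : i.1 < w.length := i.2.trans_eq (length_edges z w)
  have hj : j.1 < w.length := j.2.trans_eq (length_edges z w)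
  have h1 : (edges z w)[i.1] = (edges z w)[j.1] := hij
  rw [getElem_edges, getElem_edges, Prod.mk.injEq] at h1
  have h2 := add_left_cancel h1.1
  have h3 : (w.take i.1).length = (w.take j.1).length := by
    have h4 := ab_sum (w.take i.1)
    rw [h2, ab_sum] at h4
    exact_mod_cast h4.symm
  rw [List.length_take, List.length_take] at h3
  exact Fin.ext (by omega)

open Classical in
theorem pass_aux (B : ℕ) (w w' : List (Fin d)) (h : w.Perm w') (hB : Cls B w w')
    (q t : List (Fin d)) (hq : w' = q ++ t) :
    pass (rest w q) t ≤ B * ((edges (ab q) t).filter (fun e => e ∉ edges 0 w)).length := by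
  induction t generalizing q with
  | nil => exact Nat.zero_le _
  | cons a t ih =>
    have h1 := ih (q ++ [a]) (by rw [hq]; simp)
    rw [rest_snoc, ab_append, ab_single] at h1
    have hcnt : q.count a < w.count a := by
      rw [h.count_eq, hq, List.count_append, List.count_cons_self]
      omega
    unfold pass
    simp only [edges]
    by_cases he : ((ab q, a) : (Fin d → ℤ) × Fin d) ∈ edges 0 w
    · rw [List.filter_cons_of_neg (by simpa using he)]
      obtain ⟨k, hk, hek⟩ := mem_edges.1 he
      rw [Prod.mk.injEq, zero_add] at hek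
      have hw : w = w.take k ++ a :: w.drop (k + 1) := by
        conv_lhs => rw [← List.take_append_drop k w]
        congr 1
        rw [List.drop_eq_getElem_cons hk, hek.2]
      have h2 : rest w q = a :: w.drop (k + 1) := by
        conv_lhs => rw [hw]
        exact rest_perm _ _ _ (count_ab hek.1)
      have h3 : (rest w q).idxOf a = 0 := by rw [h2, List.idxOf_cons_self]
      rw [h3, Nat.zero_add]
      exact h1
    · rw [List.filter_cons_of_pos (by simpa using he), List.length_cons, Nat.mul_succ,
        Nat.add_comm]
      refine Nat.add_le_add h1 ?_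
      obtain ⟨w₁, w₂, hw, hc⟩ : ∃ w₁ w₂ : List (Fin d), w = w₁ ++ a :: w₂ ∧
          w₁.count a = q.count a := split_count a w _ hcnt
      rw [hw]
      refine (idx_rest a w₁ w₂ q hc.ge).trans ?_
      exact hB w₁ q ⟨a :: w₂, hw.symm⟩ ⟨a :: t, hq.symm⟩ ⟨a, hc⟩

open Classical in
/-- **Cost of a close word.** -/
theorem dS_close (S : Fin d → List (Fin d)) (K : ℕ) (hK : ∀ x y, cst S x y ≤ K) (B : ℕ)
    (w w' : List (Fin d)) (h : w.Perm w') (hB : Cls B w w') :
    dS S w w' ≤ K * (B * dif w' w) := by
  refine (dS_pass S K hK w w' h).trans (Nat.mul_le_mul_left K ?_)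
  refine (pass_aux B w w' h hB [] w' rfl).trans (Nat.mul_le_mul_left B (le_of_eq ?_))
  unfold dif E
  have h1 : (edges 0 w').toFinset \ (edges 0 w).toFinset =
      ((edges (ab ([] : List (Fin d))) w').filter (fun e => e ∉ edges 0 w)).toFinset := by
    ext e
    rw [Finset.mem_sdiff, List.mem_toFinset, List.mem_toFinset, List.mem_toFinset, List.mem_filter,
      ab_nil]
    simp
  rw [h1, List.toFinset_card_of_nodup]
  exact (edges_nodup' _ _).filter _

end Pool.Agent.Q132.AB
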