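import Pool.Agent.Q132.AB.Dens

/-!
Random compositions.
-/

set_option autoImplicit false

namespace Pool.Agent.Q132.AB
open Pool.Agent.H812R2.PI Pool.Agent.Q132.PT
open scoped BigOperators
variable {m : ℕ}

theorem nb_ofFn {r n : ℕ} (τ : Fin (r+1) → Fin (m+1) → List (Fin (m+1))) (f : Fin n → Fin (r+1)) :
    nb (τ 0) (List.ofFn fun i => τ (f i)) ≤ ∑ i, if f i = 0 then 0 else 1 := by
  induction n with
  | zero => simp [nb]
  | succ n ih =>
    rw [List.ofFn_succ, Fin.sum_univ_succ]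
    simp only [nb]
    refine Nat.add_le_add ?_ (ih fun i => f i.succ)
    by_cases h : f 0 = 0
    · rw [h, if_pos rfl, if_pos rfl]
    · rw [if_neg h]
      split_ifs <;> omega

open Classical in
/-- **Random compositions.** -/
theorem random_comp (hm : 1 ≤ m) {r : ℕ} (τ : Fin (r+1) → Fin (m+1) → List (Fin (m+1)))
    (h0 : Good (τ 0)) (hU : ∀ i, Uni (τ i)) :
    ∃ p₀ : ℝ, p₀ < 1 ∧ ∀ p : Fin (r+1) → ℝ, (∀ i, 0 ≤ p i) → ∑ i, p i = 1 → p₀ ≤ p 0 →
      ∀ n ≥ 1, (∑ f : Fin n → Fin (r+1),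
        if Good (compList (List.ofFn fun i => τ (f i))) then 0 else ∏ i, p (f i)) ≤
        (1 / 2 : ℝ) ^ n := by
  obtain ⟨η, hη, hdens⟩ := density hm h0 (Finset.univ.image τ) (fun T hT => by
    obtain ⟨i, -, rfl⟩ := Finset.mem_image.1 hT
    exact hU i)
  obtain ⟨M, hM⟩ : ∃ M : ℕ, 2 / η ≤ M := exists_nat_ge _
  rw [div_le_iff₀ hη] at hM
  refine ⟨1 - (1 / 2) ^ M, by have : (0:ℝ) < (1 / 2) ^ M := by positivity
                              linarith, fun p hp hsum hp0 n hn => ?_⟩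
  obtain ⟨h, hh⟩ : ∃ h : Fin (r+1) → ℝ, h = fun j => p j * (2 ^ M) ^ (if j = 0 then 0 else 1) :=
    ⟨_, rfl⟩
  have hterm : ∀ f : Fin n → Fin (r+1),
      (if Good (compList (List.ofFn fun i => τ (f i))) then 0 else ∏ i, p (f i)) ≤
        (1 / 4 : ℝ) ^ n * ∏ i, h (f i) := by
    intro f
    have hpf : 0 ≤ ∏ i, p (f i) := Finset.prod_nonneg fun i _ => hp (f i)
    have hprod : ∏ i, h (f i) = (∏ i, p (f i)) * (2 ^ M) ^ (∑ i, if f i = 0 then 0 else 1) := by
      rw [hh, Finset.prod_mul_distrib, Finset.prod_pow_eq_pow_sum]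
    split_ifs with hg
    · rw [hprod]; positivity
    · have hbad : η * n < (∑ i, if f i = 0 then 0 else 1 : ℕ) := by
        by_contra hcon
        push Not at hcon
        refine hg (hdens _ ?_ ?_ ?_)
        · intro h
          have := congrArg List.length h
          simp at this
          omega
        · intro S hS
          obtain ⟨i, rfl⟩ := List.mem_ofFn.1 hS
          right
          exact Finset.mem_image_of_mem _ (Finset.mem_univ _)
        · rw [List.length_ofFn]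
          refine le_trans ?_ hcon
          exact_mod_cast nb_ofFn τ f
      obtain ⟨c, hc⟩ : ∃ c : ℕ, c = ∑ i, if f i = 0 then 0 else 1 := ⟨_, rfl⟩
      rw [← hc] at hbad hprod
      have h1 : 2 * n ≤ M * c := by
        have h2 : (2:ℝ) * n ≤ M * c := by
          calc (2:ℝ) * n ≤ (M * η) * n := mul_le_mul_of_nonneg_right hM (Nat.cast_nonneg _)
            _ = M * (η * n) := by ring
            _ ≤ M * c := mul_le_mul_of_nonneg_left hbad.le (Nat.cast_nonneg _)
        exact_mod_cast h2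
      have h3 : (4:ℝ) ^ n ≤ (2 ^ M) ^ c := by
        rw [← pow_mul]
        calc (4:ℝ) ^ n = 2 ^ (2 * n) := by rw [pow_mul]; norm_num
          _ ≤ 2 ^ (M * c) := pow_le_pow_right₀ (by norm_num) h1
      rw [hprod]
      have h4 : (1:ℝ) ≤ (1 / 4) ^ n * (2 ^ M) ^ c := by
        have h5 := mul_le_mul_of_nonneg_left h3 (by positivity : (0:ℝ) ≤ (1 / 4) ^ n)
        rw [← mul_pow] at h5
        norm_num at h5 ⊢
        exact h5
      calc ∏ i, p (f i) = (∏ i, p (f i)) * 1 := (mul_one _).symm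
        _ ≤ (∏ i, p (f i)) * ((1 / 4) ^ n * (2 ^ M) ^ c) := mul_le_mul_of_nonneg_left h4 hpf
        _ = _ := by ring
  refine (Finset.sum_le_sum fun f _ => hterm f).trans ?_
  rw [← Finset.mul_sum, ← Fintype.sum_pow]
  have hs : ∑ j, h j ≤ 2 := by
    have h1 : ∑ j, h j ≤ p 0 + (1 - p 0) * 2 ^ M := by
      have h2 : ∑ j, p j = p 0 + ∑ j ∈ Finset.univ.erase 0, p j :=
        (Finset.add_sum_erase Finset.univ p (Finset.mem_univ (0 : Fin (r+1)))).symm
      rw [← Finset.add_sum_erase Finset.univ h (Finset.mem_univ (0 : Fin (r+1))), hh]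
      simp only [if_true, pow_zero, mul_one]
      refine add_le_add le_rfl (le_of_eq ?_)
      rw [show 1 - p 0 = ∑ j ∈ Finset.univ.erase 0, p j by linarith, Finset.sum_mul]
      refine Finset.sum_congr rfl fun j hj => ?_
      rw [if_neg (Finset.ne_of_mem_erase hj), pow_one]
    have h2 : (1 - p 0) * 2 ^ M ≤ 1 := by
      have h3 : 1 - p 0 ≤ (1 / 2) ^ M := by linarith
      calc (1 - p 0) * 2 ^ M ≤ (1 / 2) ^ M * 2 ^ M :=
            mul_le_mul_of_nonneg_right h3 (by positivity)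
        _ = 1 := by rw [← mul_pow]; norm_num
    have h3 : p 0 ≤ 1 := by
      rw [← hsum]
      exact Finset.single_le_sum (fun i _ => hp i) (Finset.mem_univ 0)
    linarith
  have hs0 : 0 ≤ ∑ j, h j := by
    rw [hh]
    exact Finset.sum_nonneg fun j _ => mul_nonneg (hp j) (by positivity)
  calc (1 / 4 : ℝ) ^ n * (∑ j, h j) ^ n ≤ (1 / 4 : ℝ) ^ n * 2 ^ n :=
        mul_le_mul_of_nonneg_left (pow_le_pow_left₀ hs0 hs n) (by positivity)
    _ = (1 / 2 : ℝ) ^ n := by rw [← mul_pow]; norm_num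

end Pool.Agent.Q132.AB
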