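import Pool.Agent.Q132.AB.Pass
import Pool.Agent.Q132.PC.Full

/-!
The costs are submultiplicative for powers of a fixed substitution.
-/

set_option autoImplicit false

namespace Pool.Agent.Q132.AB
open Pool.Agent.H812R2.PI Pool.Agent.Q132.PT
open scoped BigOperators
variable {d : ℕ}

theorem cst_comp_close (S τ : Fin d → List (Fin d)) (K : ℕ) (hK : ∀ x y, cst S x y ≤ K) (B : ℕ)
    (x y : Fin d) (hB : Cls B (τ x ++ τ y) (τ y ++ τ x)) :
    cst (comp S τ) x y ≤ K * (B * cst τ y x) := by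
  have h : cst (comp S τ) x y = dS S (τ x ++ τ y) (τ y ++ τ x) := by
    unfold cst dS
    rw [ext_comp, ext_comp]
    simp [ext]
  have h' : cst τ y x = dif (τ y ++ τ x) (τ x ++ τ y) := by
    unfold cst dS
    simp [ext]
  rw [h, h']
  exact dS_close S K hK B _ _ List.perm_append_comm hB

/-- bounded discrepancy of the words `σ^k(x) σ^k(y)` -/
theorem two_balanced {σ : Fin d → List (Fin d)} (P : PD (inc σ)) :
    ∃ K : ℝ, 0 ≤ K ∧ ∀ k ≥ 1, ∀ x y, ∀ w, w <+: iter σ k x ++ iter σ k y → ∀ i,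
      |(ab w i : ℝ) - (w.length : ℝ) * P.u i| ≤ K := by
  obtain ⟨K, hK0, hK⟩ := Pool.Agent.Q132.PC.balanced P
  have hpre : ∀ k ≥ 1, ∀ x, ∀ w, w <+: iter σ k x → ∀ i,
      |(ab w i : ℝ) - (w.length : ℝ) * P.u i| ≤ K :=
    fun k hk x w hw i => hK w ⟨k, hk, x, hw.isInfix⟩ i
  refine ⟨K + K, by linarith, fun k hk x y w hw i => ?_⟩
  rcases List.prefix_or_prefix_of_prefix hw (List.prefix_append _ _) with h | ⟨s, rfl⟩
  · exact (hpre k hk x w h i).trans (by linarith)
  · have h1 := hpre k hk x _ (List.prefix_refl _) i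
    have h2 := hpre k hk y s ((List.prefix_append_right_inj _).1 hw) i
    rw [ab_append, List.length_append]
    have h3 : ((((ab (iter σ k x) + ab s) i : ℤ)) : ℝ) -
        (((iter σ k x).length + s.length : ℕ) : ℝ) * P.u i =
        (((ab (iter σ k x) i : ℤ) : ℝ) - ((iter σ k x).length : ℝ) * P.u i) +
          (((ab s i : ℤ) : ℝ) - (s.length : ℝ) * P.u i) := by
      simp only [Pi.add_apply]
      push_cast
      ring
    rw [h3]
    exact (abs_add_le _ _).trans (add_le_add h1 h2)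

theorem cls_iter {σ : Fin d → List (Fin d)} (P : PD (inc σ)) :
    ∃ B : ℕ, ∀ k ≥ 1, ∀ x y, Cls B (iter σ k x ++ iter σ k y) (iter σ k y ++ iter σ k x) := by
  obtain ⟨K, hK0, hK⟩ := two_balanced P
  obtain ⟨V, hV⟩ : ∃ V : ℝ, V = ∑ a, 1 / P.u a := ⟨_, rfl⟩
  have hVa : ∀ a, 1 / P.u a ≤ V := by
    intro a
    rw [hV]
    exact Finset.single_le_sum (f := fun a => 1 / P.u a)
      (fun a _ => (one_div_pos.2 (P.u_pos a)).le) (Finset.mem_univ a)
  refine ⟨⌈(d : ℝ) * (2 * K * V + 2 * K)⌉₊, fun k hk x y w₁ q hw hq ⟨a, ha⟩ => ?_⟩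
  have h1 := hK k hk x y w₁ hw
  have h2 := hK k hk y x q hq
  have hua := P.u_pos a
  have hVa' := hVa a
  have hV0 : 0 < V := (one_div_pos.2 hua).trans_le hVa'
  -- lengths
  have hlen : ((w₁.length : ℝ) - q.length) ≤ 2 * K * V := by
    have h3 := (abs_le.1 (h1 a)).1
    have h4 := (abs_le.1 (h2 a)).2
    have h5 : ((ab w₁ a : ℤ) : ℝ) = ((ab q a : ℤ) : ℝ) := by
      unfold ab
      exact_mod_cast ha
    have h3' := (abs_le.1 (h1 a)).2
    have h4' := (abs_le.1 (h2 a)).1
    have h6 : ((w₁.length : ℝ) - q.length) * P.u a ≤ 2 * K := by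
      rw [h5] at h3
      linarith
    have h7 : ((w₁.length : ℝ) - q.length) ≤ 2 * K * (1 / P.u a) := by
      rw [mul_one_div, le_div_iff₀ hua]
      exact h6
    exact h7.trans (mul_le_mul_of_nonneg_left hVa' (by linarith))
  have hc : ∀ c, ((w₁.count c - q.count c : ℕ) : ℝ) ≤ 2 * K * V + 2 * K := by
    intro c
    have hpos : 0 ≤ 2 * K * V + 2 * K := by positivity
    by_cases hcq : q.count c ≤ w₁.count c
    · rw [Nat.cast_sub hcq]
      have h3 := (abs_le.1 (h1 c)).2
      have h4 := (abs_le.1 (h2 c)).1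
      have h5 : ((ab w₁ c : ℤ) : ℝ) = (w₁.count c : ℝ) := by unfold ab; push_cast; ring
      have h6 : ((ab q c : ℤ) : ℝ) = (q.count c : ℝ) := by unfold ab; push_cast; ring
      rw [h5] at h3
      rw [h6] at h4
      have hu0 := P.u_pos c
      have hu1 : P.u c ≤ 1 := by
        rw [← P.u_sum]
        exact Finset.single_le_sum (fun j _ => (P.u_pos j).le) (Finset.mem_univ c)
      have h7 : ((w₁.length : ℝ) - q.length) * P.u c ≤ 2 * K * V := by
        rcases le_total 0 ((w₁.length : ℝ) - q.length) with h | h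
        · calc ((w₁.length : ℝ) - q.length) * P.u c ≤ ((w₁.length : ℝ) - q.length) * 1 :=
                mul_le_mul_of_nonneg_left hu1 h
            _ ≤ _ := by rw [mul_one]; exact hlen
        · exact (mul_nonpos_of_nonpos_of_nonneg h hu0.le).trans (by positivity)
      linarith
    · rw [Nat.sub_eq_zero_of_le (by omega)]
      simpa using hpos
  have hsum : ((∑ c, (w₁.count c - q.count c) : ℕ) : ℝ) ≤ (d : ℝ) * (2 * K * V + 2 * K) := by
    push_cast
    refine (Finset.sum_le_sum fun c _ => hc c).trans ?_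
    rw [Finset.sum_const, Finset.card_univ, Fintype.card_fin, nsmul_eq_mul]
  exact_mod_cast hsum.trans (Nat.le_ceil _)

/-- **Submultiplicativity.** -/
theorem cst_comp_iter {σ : Fin d → List (Fin d)} (P : PD (inc σ)) :
    ∃ B : ℕ, ∀ k ≥ 1, ∀ (S : Fin d → List (Fin d)) (K : ℕ), (∀ x y, cst S x y ≤ K) → ∀ x y,
      cst (comp S (iter σ k)) x y ≤ K * (B * cst (iter σ k) y x) := by
  obtain ⟨B, hB⟩ := cls_iter P
  exact ⟨B, fun k hk S K hK x y => cst_comp_close S _ K hK B x y (hB k hk x y)⟩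

end Pool.Agent.Q132.AB
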